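import Mathlib

set_option autoImplicit false
set_option linter.unusedSectionVars false

namespace Pool.Agent.LibCommutantMod

open Filter Topology ContinuousLinearMap InnerProductSpace
open scoped InnerProductSpace ENNReal

variable {H : Type*} [NormedAddCommGroup H] [InnerProductSpace ℂ H] [CompleteSpace H]

/-! ### Definitions used in the statement -/

/-- `X` has finite rank. -/
def FiniteRank (X : H →L[ℂ] H) : Prop := FiniteDimensional ℂ (LinearMap.range X.toLinearMap)

/-- A normed ideal `(I, |·|)` of operators on `H`: a two-sided ideal with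
`finite rank ⊆ I ⊆ compact`, complete in a symmetric norm with `|A X B| ≤ ‖A‖ |X| ‖B‖`
(normalised to be the operator norm on operators of rank at most one). -/
structure NormedIdeal (H : Type*) [NormedAddCommGroup H] [InnerProductSpace ℂ H]
    [CompleteSpace H] where
  /-- the elements of the ideal -/
  carrier : Set (H →L[ℂ] H)
  /-- the norm of the ideal (only its values on the ideal matter) -/
  norm : (H →L[ℂ] H) → ℝ
  add_mem : ∀ X Y, X ∈ carrier → Y ∈ carrier → X + Y ∈ carrier
  smul_mem : ∀ (c : ℂ) X, X ∈ carrier → c • X ∈ carrier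
  mul_mem : ∀ A X B, X ∈ carrier → A * X * B ∈ carrier
  mem_of_finiteRank : ∀ X, FiniteRank X → X ∈ carrier
  compact_of_mem : ∀ X, X ∈ carrier → IsCompactOperator X
  norm_add_le : ∀ X Y, X ∈ carrier → Y ∈ carrier → norm (X + Y) ≤ norm X + norm Y
  norm_smul : ∀ (c : ℂ) X, X ∈ carrier → norm (c • X) = ‖c‖ * norm X
  norm_pos : ∀ X, X ∈ carrier → X ≠ 0 → 0 < norm X
  norm_mul_le : ∀ A X B, X ∈ carrier → norm (A * X * B) ≤ ‖A‖ * norm X * ‖B‖
  norm_rankOne : ∀ x y : H, norm (rankOne ℂ x y) = ‖x‖ * ‖y‖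
  complete : ∀ u : ℕ → (H →L[ℂ] H), (∀ n, u n ∈ carrier) →
    (∀ ε : ℝ, 0 < ε → ∃ N, ∀ m ≥ N, ∀ n ≥ N, norm (u m - u n) < ε) →
    ∃ X ∈ carrier, Tendsto (fun n => norm (u n - X)) atTop (𝓝 0)

/-- The finite rank operators are dense in the ideal. -/
def FiniteRankDense (I : NormedIdeal H) : Prop :=
  ∀ X ∈ I.carrier, ∀ ε : ℝ, 0 < ε → ∃ F, FiniteRank F ∧ I.norm (X - F) < ε

/-- Voiculescu's modulus of quasicentral approximation `k_I(τ)`: the least `C` in `[0, ∞]` for
which there are finite rank `0 ≤ A_m ≤ 1`, increasing strongly to `1`, with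
`max_j |[A_m, T_j]| → C`. -/
noncomputable def modulus (I : NormedIdeal H) {n : ℕ} (τ : Fin n → (H →L[ℂ] H)) : ℝ≥0∞ :=
  sInf {C | ∃ A : ℕ → (H →L[ℂ] H), (∀ m, FiniteRank (A m) ∧ 0 ≤ A m ∧ A m ≤ 1) ∧ Monotone A ∧
    (∀ v, Tendsto (fun m => A m v) atTop (𝓝 v)) ∧
    Tendsto (fun m => ⨆ j, ENNReal.ofReal (I.norm (A m * τ j - τ j * A m))) atTop (𝓝 C)}

/-- The commutant of `τ` modulo `I`. -/
def commutantMod (I : NormedIdeal H) {n : ℕ} (τ : Fin n → (H →L[ℂ] H)) : Set (H →L[ℂ] H) :=
  {X | ∀ j, X * τ j - τ j * X ∈ I.carrier}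

/-- The norm of the image of `X` in the Calkin algebra: the distance of `X` to the compact
operators. -/
noncomputable def calkinNorm (X : H →L[ℂ] H) : ℝ :=
  Metric.infDist X {T : H →L[ℂ] H | IsCompactOperator T}

/-- A term `a x_i b` or `a x_i^* b`. -/
structure Term (H : Type*) [NormedAddCommGroup H] [InnerProductSpace ℂ H] where
  /-- the left coefficient `a` -/
  left : H →L[ℂ] H
  /-- the index of the variable -/
  var : ℕ
  /-- whether the variable is starred -/
  starred : Bool
  /-- the right coefficient `b` -/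
  right : H →L[ℂ] H

/-- A `*`-polynomial of degree at most one in the variables `x_0, x_1, …`: a constant plus a
finite sum of terms `a x_i b` and `a x_i^* b`. The coefficients are operators on `H`, standing for
their images in the Calkin algebra. -/
structure Poly (H : Type*) [NormedAddCommGroup H] [InnerProductSpace ℂ H] where
  /-- the constant term -/
  const : H →L[ℂ] H
  /-- the terms of degree one -/
  terms : List (Term H)

/-- The value of a term. -/
noncomputable def Term.eval (T : Term H) (b : ℕ → (H →L[ℂ] H)) : H →L[ℂ] H :=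
  T.left * (if T.starred then adjoint (b T.var) else b T.var) * T.right

/-- The value of a polynomial. -/
noncomputable def Poly.eval (P : Poly H) (b : ℕ → (H →L[ℂ] H)) : H →L[ℂ] H :=
  P.const + (P.terms.map fun T => T.eval b).sum

/-- All coefficients of the polynomial lie in `E`. -/
def Poly.CoeffsIn (P : Poly H) (E : Set (H →L[ℂ] H)) : Prop :=
  P.const ∈ E ∧ ∀ T ∈ P.terms, T.left ∈ E ∧ T.right ∈ E

/-- The image `p(E)` of `E` in the Calkin algebra is countably degree-1 saturated. -/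
def CountablyDegreeOneSaturated (E : Set (H →L[ℂ] H)) : Prop :=
  ∀ (P : ℕ → Poly H) (C : ℕ → Set ℝ), (∀ k, (P k).CoeffsIn E) → (∀ k, IsCompact (C k)) →
    (∀ N : ℕ, 0 < N → ∃ b : ℕ → (H →L[ℂ] H), (∀ i, b i ∈ E ∧ calkinNorm (b i) ≤ 1) ∧
      ∀ k ≤ N, ∃ r ∈ C k, |calkinNorm ((P k).eval b) - r| < 1 / N) →
    ∃ b : ℕ → (H →L[ℂ] H), (∀ i, b i ∈ E ∧ calkinNorm (b i) ≤ 1) ∧
      ∀ k, calkinNorm ((P k).eval b) ∈ C k

end Pool.Agent.LibCommutantMod
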