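import Pool.Agent.LibCommutantMod.Defs

set_option autoImplicit false
set_option linter.unusedSectionVars false

namespace Pool.Agent.LibCommutantMod

open Filter Topology ContinuousLinearMap InnerProductSpace
open scoped InnerProductSpace ENNReal

variable {H : Type*} [NormedAddCommGroup H] [InnerProductSpace ℂ H] [CompleteSpace H]

/-! ### Finite sums of rank one operators -/

/-- The sum of the rank one operators given by a list of pairs of vectors. -/
noncomputable def op (l : List (H × H)) : H →L[ℂ] H := (l.map fun p => rankOne ℂ p.1 p.2).sum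

/-- The sum of the norms of the rank one operators given by a list of pairs of vectors. -/
noncomputable def nu (l : List (H × H)) : ℝ := (l.map fun p => ‖p.1‖ * ‖p.2‖).sum

@[simp] lemma op_nil : op ([] : List (H × H)) = 0 := rfl
@[simp] lemma nu_nil : nu ([] : List (H × H)) = 0 := rfl
@[simp] lemma op_cons (p : H × H) (l : List (H × H)) :
    op (p :: l) = rankOne ℂ p.1 p.2 + op l := by simp [op]
@[simp] lemma nu_cons (p : H × H) (l : List (H × H)) :
    nu (p :: l) = ‖p.1‖ * ‖p.2‖ + nu l := by simp [nu]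
lemma op_append (l m : List (H × H)) : op (l ++ m) = op l + op m := by simp [op]
lemma nu_append (l m : List (H × H)) : nu (l ++ m) = nu l + nu m := by simp [nu]

lemma nu_nonneg (l : List (H × H)) : 0 ≤ nu l := by
  induction l with
  | nil => simp
  | cons p l ih => rw [nu_cons]; positivity

lemma norm_op_le (l : List (H × H)) : ‖op l‖ ≤ nu l := by
  induction l with
  | nil => simp
  | cons p l ih =>
    rw [nu_cons, op_cons]
    refine (norm_add_le _ _).trans (add_le_add ?_ ih)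
    rw [norm_rankOne]

lemma op_map (A B : H →L[ℂ] H) (l : List (H × H)) :
    op (l.map fun p => (A p.1, adjoint B p.2)) = A * op l * B := by
  induction l with
  | nil => simp
  | cons p l ih =>
    rw [List.map_cons, op_cons, op_cons, ih, mul_add, add_mul]
    congr 1
    rw [mul_def, mul_def, comp_rankOne, rankOne_comp]

lemma nu_map_le (A B : H →L[ℂ] H) (l : List (H × H)) :
    nu (l.map fun p => (A p.1, adjoint B p.2)) ≤ ‖A‖ * ‖B‖ * nu l := by
  induction l with
  | nil => simp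
  | cons p l ih =>
    rw [List.map_cons, nu_cons, nu_cons, mul_add]
    refine add_le_add ?_ ih
    have h1 : ‖A p.1‖ ≤ ‖A‖ * ‖p.1‖ := A.le_opNorm _
    have h2 : ‖adjoint B p.2‖ ≤ ‖B‖ * ‖p.2‖ := by
      refine ((adjoint B).le_opNorm _).trans ?_
      rw [LinearIsometryEquiv.norm_map]
    calc ‖A p.1‖ * ‖adjoint B p.2‖ ≤ (‖A‖ * ‖p.1‖) * (‖B‖ * ‖p.2‖) := by gcongr
      _ = ‖A‖ * ‖B‖ * (‖p.1‖ * ‖p.2‖) := by ring

lemma op_swap (l : List (H × H)) : op (l.map fun p => (p.2, p.1)) = adjoint (op l) := by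
  induction l with
  | nil => simp
  | cons p l ih =>
    rw [List.map_cons, op_cons, op_cons, ih, map_add, adjoint_rankOne]

lemma nu_swap (l : List (H × H)) : nu (l.map fun p => (p.2, p.1)) = nu l := by
  induction l with
  | nil => simp
  | cons p l ih =>
    rw [List.map_cons, nu_cons, nu_cons, ih]; ring

/-! ### The `K`-functional -/

/-- The `K`-functional `inf { ∑ ‖x_k‖ ‖y_k‖ + t ‖X - ∑ x_k ⊗ y_k‖ }`. -/
noncomputable def K (X : H →L[ℂ] H) (t : ℝ) : ℝ := ⨅ l : List (H × H), (nu l + t * ‖X - op l‖)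

lemma K_bdd (X : H →L[ℂ] H) {t : ℝ} (ht : 0 ≤ t) :
    BddBelow (Set.range fun l : List (H × H) => nu l + t * ‖X - op l‖) := by
  refine ⟨0, ?_⟩
  rintro _ ⟨l, rfl⟩
  have := nu_nonneg l
  positivity

lemma K_le (X : H →L[ℂ] H) {t : ℝ} (ht : 0 ≤ t) (l : List (H × H)) :
    K X t ≤ nu l + t * ‖X - op l‖ := ciInf_le (K_bdd X ht) l

lemma K_nonneg (X : H →L[ℂ] H) {t : ℝ} (ht : 0 ≤ t) : 0 ≤ K X t := by
  refine le_ciInf fun l => ?_
  have := nu_nonneg l
  positivity

lemma K_le_norm (X : H →L[ℂ] H) {t : ℝ} (ht : 0 ≤ t) : K X t ≤ t * ‖X‖ := by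
  simpa using K_le X ht []

lemma K_le_nu {t : ℝ} (ht : 0 ≤ t) (l : List (H × H)) : K (op l) t ≤ nu l := by
  simpa using K_le (op l) ht l

lemma norm_le_K (X : H →L[ℂ] H) {t : ℝ} (ht : 1 ≤ t) : ‖X‖ ≤ K X t := by
  refine le_ciInf fun l => ?_
  have h1 : ‖X‖ ≤ ‖op l‖ + ‖X - op l‖ := by
    have := norm_add_le (op l) (X - op l)
    rwa [add_sub_cancel] at this
  have h2 := norm_op_le l
  have h3 : ‖X - op l‖ ≤ t * ‖X - op l‖ := le_mul_of_one_le_left (norm_nonneg _) ht
  linarith

lemma exists_K_lt (X : H →L[ℂ] H) (t : ℝ) {ε : ℝ} (hε : 0 < ε) :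
    ∃ l : List (H × H), nu l + t * ‖X - op l‖ < K X t + ε :=
  exists_lt_of_ciInf_lt (lt_add_of_pos_right _ hε)

lemma K_add_le (X Y : H →L[ℂ] H) {t : ℝ} (ht : 0 ≤ t) : K (X + Y) t ≤ K X t + K Y t := by
  refine le_of_forall_pos_le_add fun ε hε => ?_
  obtain ⟨l, hl⟩ := exists_K_lt X t (half_pos hε)
  obtain ⟨m, hm⟩ := exists_K_lt Y t (half_pos hε)
  refine (K_le (X + Y) ht (l ++ m)).trans ?_
  rw [nu_append, op_append]
  have h1 : ‖X + Y - (op l + op m)‖ ≤ ‖X - op l‖ + ‖Y - op m‖ := by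
    have e : X + Y - (op l + op m) = (X - op l) + (Y - op m) := by abel
    rw [e]; exact norm_add_le _ _
  have h2 := mul_le_mul_of_nonneg_left h1 ht
  rw [mul_add] at h2
  linarith

lemma K_mul_le (A X B : H →L[ℂ] H) {t : ℝ} (ht : 0 ≤ t) :
    K (A * X * B) t ≤ ‖A‖ * ‖B‖ * K X t := by
  unfold K
  rw [Real.mul_iInf_of_nonneg (by positivity)]
  refine le_ciInf fun l => ?_
  refine (K_le (A * X * B) ht (l.map fun p => (A p.1, adjoint B p.2))).trans ?_
  rw [op_map]
  have h1 := nu_map_le A B l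
  have h2 : ‖A * X * B - A * op l * B‖ ≤ ‖A‖ * ‖B‖ * ‖X - op l‖ := by
    have e : A * X * B - A * op l * B = A * (X - op l) * B := by
      rw [mul_sub, sub_mul]
    rw [e]
    calc ‖A * (X - op l) * B‖ ≤ ‖A‖ * ‖X - op l‖ * ‖B‖ :=
          (norm_mul_le _ _).trans (mul_le_mul_of_nonneg_right (norm_mul_le _ _) (norm_nonneg _))
      _ = ‖A‖ * ‖B‖ * ‖X - op l‖ := by ring
  have h3 := mul_le_mul_of_nonneg_left h2 ht
  calc nu (l.map fun p => (A p.1, adjoint B p.2)) + t * ‖A * X * B - A * op l * B‖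
      ≤ ‖A‖ * ‖B‖ * nu l + t * (‖A‖ * ‖B‖ * ‖X - op l‖) := add_le_add h1 h3
    _ = ‖A‖ * ‖B‖ * (nu l + t * ‖X - op l‖) := by ring

lemma K_smul_le (c : ℂ) (X : H →L[ℂ] H) {t : ℝ} (ht : 0 ≤ t) : K (c • X) t ≤ ‖c‖ * K X t := by
  have h1 := K_mul_le (c • (1 : H →L[ℂ] H)) X 1 ht
  have e : (c • (1 : H →L[ℂ] H)) * X * 1 = c • X := by simp
  rw [e] at h1
  refine h1.trans (mul_le_mul_of_nonneg_right ?_ (K_nonneg X ht))
  have h2 : ‖(1 : H →L[ℂ] H)‖ ≤ 1 := norm_id_le
  calc ‖c • (1 : H →L[ℂ] H)‖ * ‖(1 : H →L[ℂ] H)‖ ≤ (‖c‖ * 1) * 1 := by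
        rw [norm_smul]; gcongr
    _ = ‖c‖ := by ring

lemma K_adjoint_le (X : H →L[ℂ] H) {t : ℝ} (ht : 0 ≤ t) : K (adjoint X) t ≤ K X t := by
  refine le_ciInf fun l => ?_
  refine (K_le (adjoint X) ht (l.map fun p => (p.2, p.1))).trans ?_
  rw [nu_swap, op_swap, ← map_sub, LinearIsometryEquiv.norm_map]

lemma K_neg (X : H →L[ℂ] H) {t : ℝ} (ht : 0 ≤ t) : K (-X) t ≤ K X t := by
  have := K_smul_le (-1) X ht
  simpa using this

lemma K_sub_le (X Y : H →L[ℂ] H) {t : ℝ} (ht : 0 ≤ t) : K (X - Y) t ≤ K X t + K Y t := by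
  rw [sub_eq_add_neg]
  exact (K_add_le X (-Y) ht).trans (add_le_add le_rfl (K_neg Y ht))

/-! ### Finite rank and compact operators -/

lemma op_ofFn {n : ℕ} (f : Fin n → H × H) :
    op (List.ofFn f) = ∑ i, rankOne ℂ (f i).1 (f i).2 := by
  unfold op
  rw [List.map_ofFn, List.sum_ofFn]
  rfl

lemma exists_op_proj (W : Submodule ℂ H) [FiniteDimensional ℂ W] (X : H →L[ℂ] H) :
    ∃ l : List (H × H), op l = W.starProjection * X := by
  have u := stdOrthonormalBasis ℂ W
  refine ⟨List.ofFn fun i => ((u i : H), adjoint X (u i : H)), ?_⟩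
  rw [op_ofFn, u.starProjection_eq_sum_rankOne, Finset.sum_mul]
  refine Finset.sum_congr rfl fun i _ => ?_
  rw [mul_def, rankOne_comp]

lemma exists_op_of_finiteRank {X : H →L[ℂ] H} (hX : FiniteRank X) :
    ∃ l : List (H × H), op l = X := by
  have : FiniteDimensional ℂ (LinearMap.range X.toLinearMap) := hX
  obtain ⟨l, hl⟩ := exists_op_proj (LinearMap.range X.toLinearMap) X
  refine ⟨l, hl.trans ?_⟩
  ext v
  change (LinearMap.range X.toLinearMap).starProjection (X v) = X v
  exact Submodule.starProjection_eq_self_iff.mpr ⟨v, rfl⟩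

lemma compact_op (l : List (H × H)) : IsCompactOperator (op l) := by
  induction l with
  | nil => exact isCompactOperator_zero
  | cons p l ih =>
    rw [op_cons]
    refine IsCompactOperator.add ?_ ih
    rw [rankOne_def']
    have h1 : IsCompactOperator (innerSL ℂ p.2 : H →L[ℂ] ℂ) :=
      isCompactOperator_of_locallyCompactSpace_dom _
    exact h1.clm_comp (toSpanSingleton ℂ p.1)

lemma finiteRank_of_range_le {X : H →L[ℂ] H} (W : Submodule ℂ H) [FiniteDimensional ℂ W]
    (h : ∀ v, X v ∈ W) : FiniteRank X := by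
  have hle : LinearMap.range X.toLinearMap ≤ W := by
    rintro _ ⟨v, rfl⟩
    exact h v
  exact Submodule.finiteDimensional_of_le hle

lemma finiteRank_zero : FiniteRank (0 : H →L[ℂ] H) :=
  finiteRank_of_range_le ⊥ fun v => by simp

lemma finiteRank_add {X Y : H →L[ℂ] H} (hX : FiniteRank X) (hY : FiniteRank Y) :
    FiniteRank (X + Y) := by
  have : FiniteDimensional ℂ (LinearMap.range X.toLinearMap) := hX
  have : FiniteDimensional ℂ (LinearMap.range Y.toLinearMap) := hY
  refine finiteRank_of_range_le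
    (LinearMap.range X.toLinearMap ⊔ LinearMap.range Y.toLinearMap) fun v => ?_
  exact Submodule.add_mem_sup ⟨v, rfl⟩ ⟨v, rfl⟩

lemma finiteRank_rankOne (x y : H) : FiniteRank (rankOne ℂ x y) :=
  finiteRank_of_range_le (ℂ ∙ x) fun v => by
    rw [rankOne_apply]
    exact Submodule.smul_mem _ _ (Submodule.mem_span_singleton_self x)

lemma finiteRank_op (l : List (H × H)) : FiniteRank (op l) := by
  induction l with
  | nil => exact finiteRank_zero
  | cons p l ih => rw [op_cons]; exact finiteRank_add (finiteRank_rankOne _ _) ih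

lemma finiteRank_proj (W : Submodule ℂ H) [FiniteDimensional ℂ W] (X : H →L[ℂ] H) :
    FiniteRank (W.starProjection * X) :=
  finiteRank_of_range_le W fun _ => Submodule.starProjection_apply_mem _ _

/-- A compact operator is a norm limit of operators of finite rank. -/
lemma approx_of_compact {X : H →L[ℂ] H} (hX : IsCompactOperator X) {ε : ℝ} (hε : 0 < ε) :
    ∃ l : List (H × H), ‖X - op l‖ ≤ ε := by
  have h1 : IsCompact (closure (X '' Metric.closedBall 0 1)) :=
    hX.isCompact_closure_image_closedBall (f := X.toLinearMap) 1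
  obtain ⟨t, ht, hcov⟩ := Metric.totallyBounded_iff.mp h1.totallyBounded ε hε
  have : FiniteDimensional ℂ (Submodule.span ℂ t) := FiniteDimensional.span_of_finite ℂ ht
  obtain ⟨l, hl⟩ := exists_op_proj (Submodule.span ℂ t) X
  refine ⟨l, ?_⟩
  rw [hl]
  refine opNorm_le_of_unit_norm (𝕜 := ℂ) hε.le fun v hv => ?_
  change ‖X v - (Submodule.span ℂ t).starProjection (X v)‖ ≤ ε
  have hmem : X v ∈ closure (X '' Metric.closedBall 0 1) :=
    subset_closure ⟨v, by simp [hv], rfl⟩
  obtain ⟨y, hy, hy2⟩ := Set.mem_iUnion₂.mp (hcov hmem)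
  rw [Metric.mem_ball, dist_eq_norm] at hy2
  refine le_trans ?_ hy2.le
  rw [Submodule.starProjection_minimal]
  exact ciInf_le ⟨0, by rintro _ ⟨w, rfl⟩; exact norm_nonneg _⟩
    (⟨y, Submodule.subset_span hy⟩ : Submodule.span ℂ t)

/-! ### The ideal -/

/-- The terms of the series defining the norm. -/
noncomputable def kt (X : H →L[ℂ] H) (i : ℕ) : ℝ := (1 / 3 : ℝ) ^ i * K X (3 ^ i)

lemma three_pow_pos (i : ℕ) : (0 : ℝ) < 3 ^ i := by positivity

lemma kt_nonneg (X : H →L[ℂ] H) (i : ℕ) : 0 ≤ kt X i :=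
  mul_nonneg (by positivity) (K_nonneg X (three_pow_pos i).le)

lemma kt_add_le (X Y : H →L[ℂ] H) (i : ℕ) : kt (X + Y) i ≤ kt X i + kt Y i := by
  unfold kt
  rw [← mul_add]
  exact mul_le_mul_of_nonneg_left (K_add_le X Y (three_pow_pos i).le) (by positivity)

lemma kt_sub_le (X Y : H →L[ℂ] H) (i : ℕ) : kt (X - Y) i ≤ kt X i + kt Y i := by
  unfold kt
  rw [← mul_add]
  exact mul_le_mul_of_nonneg_left (K_sub_le X Y (three_pow_pos i).le) (by positivity)

lemma kt_mul_le (A X B : H →L[ℂ] H) (i : ℕ) : kt (A * X * B) i ≤ ‖A‖ * ‖B‖ * kt X i := by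
  unfold kt
  have := mul_le_mul_of_nonneg_left (K_mul_le A X B (three_pow_pos i).le)
    (by positivity : (0 : ℝ) ≤ (1 / 3) ^ i)
  linarith

lemma kt_smul_le (c : ℂ) (X : H →L[ℂ] H) (i : ℕ) : kt (c • X) i ≤ ‖c‖ * kt X i := by
  unfold kt
  have := mul_le_mul_of_nonneg_left (K_smul_le c X (three_pow_pos i).le)
    (by positivity : (0 : ℝ) ≤ (1 / 3) ^ i)
  linarith

lemma kt_adjoint_le (X : H →L[ℂ] H) (i : ℕ) : kt (adjoint X) i ≤ kt X i :=
  mul_le_mul_of_nonneg_left (K_adjoint_le X (three_pow_pos i).le) (by positivity)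

lemma third_pow_mul (i : ℕ) : (1 / 3 : ℝ) ^ i * 3 ^ i = 1 := by
  rw [← mul_pow]; norm_num

lemma kt_le_norm (X : H →L[ℂ] H) (i : ℕ) : kt X i ≤ ‖X‖ := by
  have := mul_le_mul_of_nonneg_left (K_le_norm X (three_pow_pos i).le)
    (by positivity : (0 : ℝ) ≤ (1 / 3) ^ i)
  rw [← mul_assoc, third_pow_mul, one_mul] at this
  exact this

lemma kt_op_le (l : List (H × H)) (i : ℕ) : kt (op l) i ≤ (1 / 3) ^ i * nu l :=
  mul_le_mul_of_nonneg_left (K_le_nu (three_pow_pos i).le l) (by positivity)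

lemma le_kt (X : H →L[ℂ] H) (i : ℕ) : (1 / 3) ^ i * ‖X‖ ≤ kt X i :=
  mul_le_mul_of_nonneg_left (norm_le_K X (one_le_pow₀ (by norm_num))) (by positivity)

lemma summable_third : Summable fun i : ℕ => (1 / 3 : ℝ) ^ i :=
  summable_geometric_of_lt_one (by norm_num) (by norm_num)

lemma tsum_third : ∑' i : ℕ, (1 / 3 : ℝ) ^ i = 3 / 2 := by
  rw [tsum_geometric_of_lt_one (by norm_num) (by norm_num)]; norm_num

/-- The norm of the ideal. -/
noncomputable def N (X : H →L[ℂ] H) : ℝ := 2 / 3 * ∑' i, kt X i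

/-- The underlying set of the ideal. -/
def Mem (X : H →L[ℂ] H) : Prop := Summable (kt X)

lemma N_nonneg (X : H →L[ℂ] H) : 0 ≤ N X :=
  mul_nonneg (by norm_num) (tsum_nonneg (kt_nonneg X))

lemma Mem.add {X Y : H →L[ℂ] H} (hX : Mem X) (hY : Mem Y) : Mem (X + Y) :=
  Summable.of_nonneg_of_le (kt_nonneg _) (kt_add_le X Y) (Summable.add hX hY)

lemma Mem.sub {X Y : H →L[ℂ] H} (hX : Mem X) (hY : Mem Y) : Mem (X - Y) :=
  Summable.of_nonneg_of_le (kt_nonneg _) (kt_sub_le X Y) (Summable.add hX hY)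

lemma Mem.mul {X : H →L[ℂ] H} (hX : Mem X) (A B : H →L[ℂ] H) : Mem (A * X * B) :=
  Summable.of_nonneg_of_le (kt_nonneg _) (kt_mul_le A X B) (Summable.mul_left _ hX)

lemma Mem.smul {X : H →L[ℂ] H} (hX : Mem X) (c : ℂ) : Mem (c • X) :=
  Summable.of_nonneg_of_le (kt_nonneg _) (kt_smul_le c X) (Summable.mul_left _ hX)

lemma Mem.adjoint {X : H →L[ℂ] H} (hX : Mem X) : Mem (ContinuousLinearMap.adjoint X) :=
  Summable.of_nonneg_of_le (kt_nonneg _) (kt_adjoint_le X) hX

lemma mem_op (l : List (H × H)) : Mem (op l) :=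
  Summable.of_nonneg_of_le (kt_nonneg _) (kt_op_le l) (summable_third.mul_right _)

lemma mem_finiteRank {X : H →L[ℂ] H} (hX : FiniteRank X) : Mem X := by
  obtain ⟨l, rfl⟩ := exists_op_of_finiteRank hX
  exact mem_op l

lemma N_mono_of {X Y : H →L[ℂ] H} {c : ℝ} (hY : Mem Y) (h : ∀ i, kt X i ≤ c * kt Y i) :
    N X ≤ c * N Y := by
  unfold N
  have hs : Summable (kt X) :=
    Summable.of_nonneg_of_le (kt_nonneg _) h (Summable.mul_left _ hY)
  have := Summable.tsum_le_tsum h hs (Summable.mul_left _ hY)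
  rw [tsum_mul_left] at this
  linarith

lemma N_add_le {X Y : H →L[ℂ] H} (hX : Mem X) (hY : Mem Y) : N (X + Y) ≤ N X + N Y := by
  unfold N
  have := Summable.tsum_le_tsum (kt_add_le X Y) (hX.add hY) (Summable.add hX hY)
  rw [Summable.tsum_add hX hY] at this
  linarith

lemma N_sub_le {X Y : H →L[ℂ] H} (hX : Mem X) (hY : Mem Y) : N (X - Y) ≤ N X + N Y := by
  unfold N
  have := Summable.tsum_le_tsum (kt_sub_le X Y) (hX.sub hY) (Summable.add hX hY)
  rw [Summable.tsum_add hX hY] at this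
  linarith

lemma N_mul_le {X : H →L[ℂ] H} (hX : Mem X) (A B : H →L[ℂ] H) :
    N (A * X * B) ≤ ‖A‖ * ‖B‖ * N X := N_mono_of hX (kt_mul_le A X B)

lemma N_smul_le {X : H →L[ℂ] H} (hX : Mem X) (c : ℂ) : N (c • X) ≤ ‖c‖ * N X :=
  N_mono_of hX (kt_smul_le c X)

lemma N_smul {X : H →L[ℂ] H} (hX : Mem X) (c : ℂ) : N (c • X) = ‖c‖ * N X := by
  refine le_antisymm (N_smul_le hX c) ?_
  by_cases hc : c = 0
  · subst hc; simp [N_nonneg]
  · have h1 := N_smul_le (hX.smul c) c⁻¹
    rw [inv_smul_smul₀ hc, norm_inv] at h1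
    have hc' : 0 < ‖c‖ := norm_pos_iff.mpr hc
    calc ‖c‖ * N X ≤ ‖c‖ * (‖c‖⁻¹ * N (c • X)) := mul_le_mul_of_nonneg_left h1 hc'.le
      _ = N (c • X) := by rw [← mul_assoc, mul_inv_cancel₀ hc'.ne', one_mul]

lemma N_adjoint_le {X : H →L[ℂ] H} (hX : Mem X) : N (adjoint X) ≤ N X := by
  have := N_mono_of (X := adjoint X) (c := 1) hX (fun i => by rw [one_mul]; exact kt_adjoint_le X i)
  rwa [one_mul] at this

lemma norm_le_N {X : H →L[ℂ] H} (hX : Mem X) : ‖X‖ ≤ N X := by
  have := Summable.tsum_le_tsum (le_kt X) (summable_third.mul_right _) hX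
  rw [tsum_mul_right, tsum_third] at this
  unfold N
  linarith

lemma N_rankOne (x y : H) : N (rankOne ℂ x y) = ‖x‖ * ‖y‖ := by
  have hm : Mem (rankOne ℂ x y) := mem_finiteRank (finiteRank_rankOne x y)
  refine le_antisymm ?_ ?_
  · have h1 : ∀ i, kt (rankOne ℂ x y) i ≤ (1 / 3) ^ i * (‖x‖ * ‖y‖) := by
      intro i
      simpa using kt_op_le [(x, y)] i
    have := Summable.tsum_le_tsum h1 hm (summable_third.mul_right _)
    rw [tsum_mul_right, tsum_third] at this
    unfold N
    linarith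
  · have := norm_le_N hm
    rwa [norm_rankOne] at this

/-- Domination: if `X_n → 0` in norm and `kt (X_n) ≤ g` with `g` summable then `N (X_n) → 0`. -/
lemma N_tendsto_zero {u : ℕ → (H →L[ℂ] H)} {g : ℕ → ℝ} (hg : Summable g)
    (hu : Tendsto (fun n => ‖u n‖) atTop (𝓝 0)) (hug : ∀ n i, kt (u n) i ≤ g i) :
    Tendsto (fun n => N (u n)) atTop (𝓝 0) := by
  have h1 : Tendsto (fun n => ∑' i, kt (u n) i) atTop (𝓝 (∑' i : ℕ, (0 : ℝ))) := by
    refine tendsto_tsum_of_dominated_convergence hg (fun i => ?_)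
      (Eventually.of_forall fun n i => ?_)
    · exact squeeze_zero (fun n => kt_nonneg _ _) (fun n => kt_le_norm (u n) i) hu
    · rw [Real.norm_of_nonneg (kt_nonneg _ _)]; exact hug n i
  rw [tsum_zero] at h1
  have := h1.const_mul (2 / 3)
  rw [mul_zero] at this
  exact this

lemma K_norm_sub_le (X Y : H →L[ℂ] H) {t : ℝ} (ht : 0 ≤ t) : K X t ≤ K Y t + t * ‖X - Y‖ := by
  have h1 := K_add_le Y (X - Y) ht
  rw [add_sub_cancel] at h1
  exact h1.trans (add_le_add le_rfl (K_le_norm _ ht))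

lemma mem_compact {X : H →L[ℂ] H} (hX : Mem X) : IsCompactOperator X := by
  have h0 : Tendsto (kt X) atTop (𝓝 0) := hX.tendsto_atTop_zero
  have h1 : ∀ m : ℕ, ∃ l : List (H × H), ‖X - op l‖ ≤ kt X m + (1 / 3) ^ m := by
    intro m
    obtain ⟨l, hl⟩ := exists_K_lt X (3 ^ m) (one_pos)
    refine ⟨l, ?_⟩
    have h2 : (3 : ℝ) ^ m * ‖X - op l‖ ≤ K X (3 ^ m) + 1 := by
      have := nu_nonneg l
      linarith
    have h3 := mul_le_mul_of_nonneg_left h2 (by positivity : (0 : ℝ) ≤ (1 / 3) ^ m)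
    rw [← mul_assoc, third_pow_mul, one_mul, mul_add, mul_one] at h3
    exact h3
  choose l hl using h1
  have h2 : Tendsto (fun m => op (l m)) atTop (𝓝 X) := by
    rw [tendsto_iff_norm_sub_tendsto_zero]
    have h3 : Tendsto (fun m => kt X m + (1 / 3 : ℝ) ^ m) atTop (𝓝 (0 + 0)) :=
      h0.add (tendsto_pow_atTop_nhds_zero_of_lt_one (by norm_num) (by norm_num))
    rw [add_zero] at h3
    refine squeeze_zero (fun _ => norm_nonneg _) (fun m => ?_) h3
    rw [norm_sub_rev]
    exact hl m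
  exact isCompactOperator_of_tendsto (l := atTop) (F := fun m => op (l m)) (f := X) h2
    (Eventually.of_forall fun m => compact_op (l m))

lemma N_complete (u : ℕ → (H →L[ℂ] H)) (hu : ∀ n, Mem (u n))
    (hc : ∀ ε : ℝ, 0 < ε → ∃ n₀, ∀ m ≥ n₀, ∀ n ≥ n₀, N (u m - u n) < ε) :
    ∃ X, Mem X ∧ Tendsto (fun n => N (u n - X)) atTop (𝓝 0) := by
  have hcau : CauchySeq u := by
    rw [Metric.cauchySeq_iff]
    intro ε hε
    obtain ⟨n₀, h⟩ := hc ε hε
    refine ⟨n₀, fun m hm n hn => ?_⟩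
    rw [dist_eq_norm]
    exact (norm_le_N ((hu m).sub (hu n))).trans_lt (h m hm n hn)
  obtain ⟨X, hX⟩ := cauchySeq_tendsto_of_complete hcau
  have key : ∀ ε : ℝ, 0 < ε → ∀ n₀, (∀ m ≥ n₀, ∀ n ≥ n₀, N (u m - u n) < ε) →
      ∀ m ≥ n₀, ∀ s : Finset ℕ, ∑ i ∈ s, kt (u m - X) i ≤ 3 / 2 * ε := by
    intro ε hε n₀ h m hm s
    have h1 : ∀ i, Tendsto (fun n => kt (u m - u n) i) atTop (𝓝 (kt (u m - X) i)) := by
      intro i
      rw [tendsto_iff_norm_sub_tendsto_zero]
      have h2 : Tendsto (fun n => ‖u n - X‖) atTop (𝓝 0) :=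
        tendsto_iff_norm_sub_tendsto_zero.mp hX
      refine squeeze_zero (fun _ => norm_nonneg _) (fun n => ?_) h2
      have e1 : kt (u m - u n) i ≤ kt (u m - X) i + ‖u n - X‖ := by
        have e := kt_add_le (u m - X) (X - u n) i
        rw [sub_add_sub_cancel] at e
        have e' := kt_le_norm (X - u n) i
        rw [norm_sub_rev] at e'
        linarith
      have e2 : kt (u m - X) i ≤ kt (u m - u n) i + ‖u n - X‖ := by
        have e := kt_add_le (u m - u n) (u n - X) i
        rw [sub_add_sub_cancel] at e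
        have e' := kt_le_norm (u n - X) i
        linarith
      rw [Real.norm_eq_abs, abs_le]
      constructor <;> linarith
    refine le_of_tendsto (tendsto_finsetSum s fun i _ => h1 i) ?_
    filter_upwards [eventually_ge_atTop n₀] with n hn
    have h2 := h m hm n hn
    have h3 : ∑ i ∈ s, kt (u m - u n) i ≤ ∑' i, kt (u m - u n) i :=
      Summable.sum_le_tsum s (fun i _ => kt_nonneg _ i) ((hu m).sub (hu n))
    unfold N at h2
    linarith
  have hmem : ∀ ε : ℝ, 0 < ε → ∀ n₀, (∀ m ≥ n₀, ∀ n ≥ n₀, N (u m - u n) < ε) →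
      ∀ m ≥ n₀, Mem (u m - X) ∧ N (u m - X) ≤ ε := by
    intro ε hε n₀ h m hm
    have h1 := key ε hε n₀ h m hm
    have h2 : Mem (u m - X) := summable_of_sum_le (kt_nonneg _) h1
    refine ⟨h2, ?_⟩
    have h3 := h2.tsum_le_of_sum_le h1
    unfold N
    linarith
  obtain ⟨n₁, hn₁⟩ := hc 1 one_pos
  have hXm : Mem X := by
    have := (hu n₁).sub (hmem 1 one_pos n₁ hn₁ n₁ le_rfl).1
    rwa [sub_sub_cancel] at this
  refine ⟨X, hXm, ?_⟩
  rw [Metric.tendsto_atTop]
  intro ε hε
  obtain ⟨n₀, h⟩ := hc (ε / 2) (half_pos hε)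
  refine ⟨n₀, fun m hm => ?_⟩
  have := (hmem (ε / 2) (half_pos hε) n₀ h m hm).2
  rw [Real.dist_eq, sub_zero, abs_of_nonneg (N_nonneg _)]
  linarith

/-- The normed ideal used for the counterexample (it is the Macaev ideal up to equivalence of
norms). -/
noncomputable def theIdeal (H : Type*) [NormedAddCommGroup H] [InnerProductSpace ℂ H]
    [CompleteSpace H] : NormedIdeal H where
  carrier := {X | Mem X}
  norm := N
  add_mem := fun _ _ hX hY => hX.add hY
  smul_mem := fun c _ hX => hX.smul c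
  mul_mem := fun A _ B hX => hX.mul A B
  mem_of_finiteRank := fun _ hX => mem_finiteRank hX
  compact_of_mem := fun _ hX => mem_compact hX
  norm_add_le := fun _ _ hX hY => N_add_le hX hY
  norm_smul := fun c _ hX => N_smul hX c
  norm_pos := fun X hX h0 => (norm_pos_iff.mpr h0).trans_le (norm_le_N hX)
  norm_mul_le := fun A X B hX => by
    have := N_mul_le hX A B
    calc N (A * X * B) ≤ ‖A‖ * ‖B‖ * N X := this
      _ = ‖A‖ * N X * ‖B‖ := by ring
  norm_rankOne := N_rankOne
  complete := fun u hu hc => by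
    obtain ⟨X, hX, hX2⟩ := N_complete u hu hc
    exact ⟨X, hX, hX2⟩

lemma theIdeal_dense : FiniteRankDense (theIdeal H) := by
  intro X hX ε hε
  have hX' : Mem X := hX
  have hcomp := mem_compact hX'
  have h1 : ∀ n : ℕ, ∃ R : H →L[ℂ] H, ‖(1 : H →L[ℂ] H) - R‖ ≤ 1 ∧ FiniteRank (R * X) ∧
      ‖X - R * X‖ ≤ 1 / ((n : ℝ) + 1) := by
    intro n
    obtain ⟨l, hl⟩ := approx_of_compact hcomp (ε := 1 / ((n : ℝ) + 1)) (by positivity)
    have hfin : FiniteDimensional ℂ (LinearMap.range (op l).toLinearMap) := finiteRank_op l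
    obtain ⟨W, hW⟩ : ∃ W : Submodule ℂ H, W = LinearMap.range (op l).toLinearMap := ⟨_, rfl⟩
    have hWf : FiniteDimensional ℂ W := by rw [hW]; exact hfin
    have hn : ‖(1 : H →L[ℂ] H) - W.starProjection‖ ≤ 1 := by
      rw [← Submodule.starProjection_orthogonal']
      exact Submodule.starProjection_norm_le _
    refine ⟨W.starProjection, hn, finiteRank_proj W X, ?_⟩
    have e1 : W.starProjection * op l = op l := by
      ext v
      change W.starProjection (op l v) = op l v
      rw [Submodule.starProjection_eq_self_iff, hW]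
      exact ⟨v, rfl⟩
    have e2 : X - W.starProjection * X = (1 - W.starProjection) * (X - op l) := by
      rw [sub_mul, one_mul, mul_sub, e1]; abel
    rw [e2]
    refine (norm_mul_le _ _).trans ?_
    calc ‖1 - W.starProjection‖ * ‖X - op l‖ ≤ 1 * (1 / ((n : ℝ) + 1)) := by gcongr
      _ = _ := one_mul _
  choose R hR1 hR2 hR3 using h1
  have h2 : Tendsto (fun n => N (X - R n * X)) atTop (𝓝 0) := by
    refine N_tendsto_zero (g := kt X) hX' ?_ ?_
    · exact squeeze_zero (fun _ => norm_nonneg _) hR3 tendsto_one_div_add_atTop_nhds_zero_nat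
    · intro n i
      have e : X - R n * X = (1 - R n) * X * 1 := by rw [sub_mul, one_mul, mul_one]
      rw [e]
      refine (kt_mul_le _ _ _ i).trans ?_
      have h3 : ‖(1 : H →L[ℂ] H)‖ ≤ 1 := norm_id_le
      have h4 : ‖(1 : H →L[ℂ] H) - R n‖ * ‖(1 : H →L[ℂ] H)‖ ≤ 1 := by
        calc ‖(1 : H →L[ℂ] H) - R n‖ * ‖(1 : H →L[ℂ] H)‖ ≤ 1 * 1 :=
              mul_le_mul (hR1 n) h3 (norm_nonneg _) zero_le_one
          _ = 1 := one_mul _
      exact mul_le_of_le_one_left (kt_nonneg X i) h4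
  obtain ⟨n, hn⟩ := ((h2.eventually_lt_const hε)).exists
  exact ⟨R n * X, hR2 n, hn⟩

/-! ### The key inequality for three isometries with orthogonal ranges -/

/-- Three isometries with mutually orthogonal ranges. -/
def Cuntz (S : Fin 3 → (H →L[ℂ] H)) : Prop :=
  ∀ i j, adjoint (S i) * S j = if i = j then 1 else 0

lemma Cuntz.bessel {S : Fin 3 → (H →L[ℂ] H)} (hS : Cuntz S) (x : H) :
    ∑ i, ‖adjoint (S i) x‖ ^ 2 ≤ ‖x‖ ^ 2 := by
  obtain ⟨y, hy⟩ : ∃ y : H, y = ∑ i, S i (adjoint (S i) x) := ⟨_, rfl⟩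
  have h1 : ⟪x, y⟫_ℂ = ((∑ i, ‖adjoint (S i) x‖ ^ 2 : ℝ) : ℂ) := by
    rw [hy, inner_sum, Complex.ofReal_sum]
    refine Finset.sum_congr rfl fun i _ => ?_
    rw [← adjoint_inner_left, inner_self_eq_norm_sq_to_K]
    norm_cast
  have h2 : ⟪y, y⟫_ℂ = ((∑ i, ‖adjoint (S i) x‖ ^ 2 : ℝ) : ℂ) := by
    rw [hy, sum_inner, Complex.ofReal_sum]
    refine Finset.sum_congr rfl fun i _ => ?_
    rw [inner_sum]
    have h3 : ∀ j, ⟪S i (adjoint (S i) x), S j (adjoint (S j) x)⟫_ℂ =
        if i = j then ((‖adjoint (S i) x‖ ^ 2 : ℝ) : ℂ) else 0 := by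
      intro j
      rw [← adjoint_inner_right]
      have h4 : adjoint (S i) (S j (adjoint (S j) x)) =
          (adjoint (S i) * S j) (adjoint (S j) x) := rfl
      rw [h4, hS i j]
      split_ifs with hij
      · subst hij
        change ⟪adjoint (S i) x, adjoint (S i) x⟫_ℂ = _
        rw [inner_self_eq_norm_sq_to_K]
        norm_cast
      · simp
    rw [Finset.sum_congr rfl fun j _ => h3 j, Finset.sum_ite_eq, if_pos (Finset.mem_univ i)]
  have h5 : ‖y‖ ^ 2 = ∑ i, ‖adjoint (S i) x‖ ^ 2 := by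
    apply Complex.ofReal_injective
    rw [← h2, inner_self_eq_norm_sq_to_K]
    simp
  have h7 : ‖y‖ ^ 2 ≤ ‖x‖ * ‖y‖ := by
    have h8 := norm_inner_le_norm (𝕜 := ℂ) x y
    rw [h1, Complex.norm_real, ← h5, Real.norm_of_nonneg (by positivity)] at h8
    exact h8
  rw [← h5]
  rcases eq_or_lt_of_le (norm_nonneg y) with h0 | h0
  · rw [← h0]; nlinarith [sq_nonneg ‖x‖]
  · have h9 : ‖y‖ ≤ ‖x‖ := by
      have : ‖y‖ * ‖y‖ ≤ ‖x‖ * ‖y‖ := by rw [← sq]; exact h7
      exact le_of_mul_le_mul_right this h0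
    exact pow_le_pow_left₀ h0.le h9 2

lemma Cuntz.norm_le {S : Fin 3 → (H →L[ℂ] H)} (hS : Cuntz S) (i : Fin 3) : ‖S i‖ ≤ 1 := by
  refine opNorm_le_bound _ zero_le_one fun v => ?_
  rw [one_mul]
  have h1 : adjoint (S i) * S i = 1 := by rw [hS i i, if_pos rfl]
  have h2 : ∀ v, ‖S i v‖ = ‖v‖ := (norm_map_iff_adjoint_comp_self (S i)).mpr h1
  exact (h2 v).le

lemma Cuntz.norm_adjoint_le {S : Fin 3 → (H →L[ℂ] H)} (hS : Cuntz S) (i : Fin 3) :
    ‖adjoint (S i)‖ ≤ 1 := by
  rw [LinearIsometryEquiv.norm_map]; exact hS.norm_le i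

lemma Cuntz.nu_le {S : Fin 3 → (H →L[ℂ] H)} (hS : Cuntz S) (l : List (H × H)) :
    ∑ i, nu (l.map fun p => (adjoint (S i) p.1, adjoint (S i) p.2)) ≤ nu l := by
  induction l with
  | nil => simp
  | cons p l ih =>
    simp only [List.map_cons, nu_cons]
    rw [Finset.sum_add_distrib]
    refine add_le_add ?_ ih
    have h1 := hS.bessel p.1
    have h2 := hS.bessel p.2
    have h3 : (∑ i, ‖adjoint (S i) p.1‖ * ‖adjoint (S i) p.2‖) ^ 2 ≤
        (∑ i, ‖adjoint (S i) p.1‖ ^ 2) * ∑ i, ‖adjoint (S i) p.2‖ ^ 2 :=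
      Finset.sum_mul_sq_le_sq_mul_sq _ _ _
    have h4 : (∑ i, ‖adjoint (S i) p.1‖ * ‖adjoint (S i) p.2‖) ^ 2 ≤ (‖p.1‖ * ‖p.2‖) ^ 2 := by
      refine h3.trans ?_
      rw [mul_pow]
      exact mul_le_mul h1 h2 (Finset.sum_nonneg fun _ _ => by positivity) (by positivity)
    exact abs_le_of_sq_le_sq' h4 (by positivity) |>.2

lemma Cuntz.K_ineq {S : Fin 3 → (H →L[ℂ] H)} (hS : Cuntz S) (X : H →L[ℂ] H) {t : ℝ}
    (ht : 0 ≤ t) : 3 * K X t ≤ K X (3 * t) + ∑ i, K (X * S i - S i * X) t := by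
  rw [← sub_le_iff_le_add]
  refine le_ciInf fun l => ?_
  rw [sub_le_iff_le_add]
  have h1 : ∀ i, K X t ≤ (nu (l.map fun p => (adjoint (S i) p.1, adjoint (S i) p.2)) +
      t * ‖X - op l‖) + K (X * S i - S i * X) t := by
    intro i
    have e0 : adjoint (S i) * S i = 1 := by rw [hS i i, if_pos rfl]
    have e1 : X = adjoint (S i) * X * S i - adjoint (S i) * (X * S i - S i * X) * 1 := by
      rw [mul_one, mul_sub, ← mul_assoc, ← mul_assoc, e0, one_mul]; abel
    have h2 : K X t ≤ K (adjoint (S i) * X * S i) t +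
        K (adjoint (S i) * (X * S i - S i * X) * 1) t := by
      conv_lhs => rw [e1]
      exact K_sub_le _ _ ht
    have h3 : K (adjoint (S i) * (X * S i - S i * X) * 1) t ≤ K (X * S i - S i * X) t := by
      refine (K_mul_le _ _ _ ht).trans ?_
      refine mul_le_of_le_one_left (K_nonneg _ ht) ?_
      have h4 : ‖(1 : H →L[ℂ] H)‖ ≤ 1 := norm_id_le
      calc ‖adjoint (S i)‖ * ‖(1 : H →L[ℂ] H)‖ ≤ 1 * 1 :=
            mul_le_mul (hS.norm_adjoint_le i) h4 (norm_nonneg _) zero_le_one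
        _ = 1 := one_mul _
    have h5 : K (adjoint (S i) * X * S i) t ≤
        nu (l.map fun p => (adjoint (S i) p.1, adjoint (S i) p.2)) + t * ‖X - op l‖ := by
      refine (K_le _ ht (l.map fun p => (adjoint (S i) p.1, adjoint (S i) p.2))).trans ?_
      rw [op_map (adjoint (S i)) (S i)]
      refine add_le_add le_rfl (mul_le_mul_of_nonneg_left ?_ ht)
      have e2 : adjoint (S i) * X * S i - adjoint (S i) * op l * S i =
          adjoint (S i) * (X - op l) * S i := by rw [mul_sub, sub_mul]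
      rw [e2]
      calc ‖adjoint (S i) * (X - op l) * S i‖
          ≤ ‖adjoint (S i)‖ * ‖X - op l‖ * ‖S i‖ :=
            (norm_mul_le _ _).trans (mul_le_mul_of_nonneg_right (norm_mul_le _ _) (norm_nonneg _))
        _ ≤ 1 * ‖X - op l‖ * 1 := by
            have := hS.norm_adjoint_le i
            have := hS.norm_le i
            gcongr
        _ = ‖X - op l‖ := by ring
    linarith
  have h6 := Finset.sum_le_sum fun (i : Fin 3) (_ : i ∈ Finset.univ) => h1 i
  rw [Finset.sum_const, Finset.card_univ, Fintype.card_fin, Finset.sum_add_distrib,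
    Finset.sum_add_distrib, Finset.sum_const, Finset.card_univ, Fintype.card_fin] at h6
  simp only [nsmul_eq_mul, Nat.cast_ofNat] at h6
  have h7 := hS.nu_le l
  linarith

/-- A compact operator which commutes with the three isometries modulo the ideal has norm at most
half the sum of the norms of the commutators. -/
lemma Cuntz.norm_le_sum {S : Fin 3 → (H →L[ℂ] H)} (hS : Cuntz S) {X : H →L[ℂ] H}
    (hX : IsCompactOperator X) (hm : ∀ i, Mem (X * S i - S i * X)) :
    ‖X‖ ≤ 1 / 2 * ∑ i, N (X * S i - S i * X) := by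
  have step : ∀ n : ℕ, kt X n ≤ kt X (n + 1) + 1 / 3 * ∑ i, kt (X * S i - S i * X) n := by
    intro n
    have h1 := hS.K_ineq X (three_pow_pos n).le
    unfold kt
    have e1 : (3 : ℝ) * 3 ^ n = 3 ^ (n + 1) := by rw [pow_succ]; ring
    rw [e1] at h1
    have h2 := mul_le_mul_of_nonneg_left h1 (by positivity : (0 : ℝ) ≤ (1 / 3) ^ (n + 1))
    rw [← Finset.mul_sum]
    have e2 : ((1 : ℝ) / 3) ^ (n + 1) * (3 * K X (3 ^ n)) = (1 / 3) ^ n * K X (3 ^ n) := by
      rw [pow_succ]; ring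
    rw [e2, mul_add] at h2
    have e3 : ((1 : ℝ) / 3) ^ (n + 1) * ∑ i, K (X * S i - S i * X) (3 ^ n) =
        1 / 3 * ((1 / 3) ^ n * ∑ i, K (X * S i - S i * X) (3 ^ n)) := by
      rw [pow_succ]; ring
    rw [e3] at h2
    exact h2
  have iter : ∀ n : ℕ, kt X 0 ≤ kt X n +
      1 / 3 * ∑ m ∈ Finset.range n, ∑ i, kt (X * S i - S i * X) m := by
    intro n
    induction n with
    | zero => simp
    | succ n ih =>
      rw [Finset.sum_range_succ, mul_add]
      have := step n
      linarith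
  have hlim : Tendsto (kt X) atTop (𝓝 0) := by
    rw [Metric.tendsto_atTop]
    intro ε hε
    obtain ⟨l, hl⟩ := approx_of_compact hX (half_pos hε)
    have h1 : Tendsto (fun n : ℕ => (1 / 3 : ℝ) ^ n * nu l) atTop (𝓝 (0 * nu l)) :=
      (tendsto_pow_atTop_nhds_zero_of_lt_one (by norm_num) (by norm_num)).mul_const _
    rw [zero_mul] at h1
    obtain ⟨n₀, hn₀⟩ := eventually_atTop.mp (h1.eventually_lt_const (half_pos hε))
    refine ⟨n₀, fun n hn => ?_⟩
    rw [Real.dist_eq, sub_zero, abs_of_nonneg (kt_nonneg _ _)]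
    have h2 := kt_add_le (op l) (X - op l) n
    rw [add_sub_cancel] at h2
    have h3 := kt_le_norm (X - op l) n
    have h4 := kt_op_le l n
    have h5 := hn₀ n hn
    linarith
  have hsum : ∀ n : ℕ, 1 / 3 * ∑ m ∈ Finset.range n, ∑ i, kt (X * S i - S i * X) m ≤
      1 / 2 * ∑ i, N (X * S i - S i * X) := by
    intro n
    rw [Finset.sum_comm]
    have h1 : ∀ i, ∑ m ∈ Finset.range n, kt (X * S i - S i * X) m ≤
        3 / 2 * N (X * S i - S i * X) := by
      intro i
      have := Summable.sum_le_tsum (Finset.range n) (fun m _ => kt_nonneg _ m) (hm i)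
      unfold N
      linarith
    have h2 := Finset.sum_le_sum fun (i : Fin 3) (_ : i ∈ Finset.univ) => h1 i
    rw [← Finset.mul_sum] at h2
    linarith
  have h0 : ‖X‖ ≤ kt X 0 := by
    have := le_kt X 0
    simpa using this
  have h1 : ∀ n, ‖X‖ ≤ kt X n + 1 / 2 * ∑ i, N (X * S i - S i * X) := by
    intro n
    have := iter n
    have := hsum n
    linarith
  have h2 : Tendsto (fun n => kt X n + 1 / 2 * ∑ i, N (X * S i - S i * X)) atTop
      (𝓝 (0 + 1 / 2 * ∑ i, N (X * S i - S i * X))) := hlim.add tendsto_const_nhds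
  rw [zero_add] at h2
  exact ge_of_tendsto' h2 h1

/-! ### Operators defined on a Hilbert basis indexed by `ℕ × ℕ` -/

section Basis

variable (b : HilbertBasis (ℕ × ℕ) ℂ H)

lemma ext_basis {A B : H →L[ℂ] H} (h : ∀ p, A (b p) = B (b p)) : A = B := by
  have hd : Dense (Submodule.span ℂ (Set.range b) : Set H) := by
    rw [Submodule.dense_iff_topologicalClosure_eq_top]
    exact b.dense_span
  refine ContinuousLinearMap.ext_on hd ?_
  rintro _ ⟨p, rfl⟩
  exact h p

lemma ext_inner_basis {u v : H} (h : ∀ p, ⟪b p, u⟫_ℂ = ⟪b p, v⟫_ℂ) : u = v := by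
  apply b.repr.injective
  apply lp.ext
  funext p
  rw [b.repr_apply_apply, b.repr_apply_apply, h]

lemma inner_basis (p q : ℕ × ℕ) : ⟪b p, b q⟫_ℂ = if p = q then 1 else 0 :=
  orthonormal_iff_ite.mp b.orthonormal p q

/-- The isometry sending `b p` to `b (f p)`. -/
noncomputable def shift (f : ℕ × ℕ → ℕ × ℕ) (hf : Function.Injective f) : H →L[ℂ] H :=
  ((b.orthonormal.comp f hf).orthogonalFamily.linearIsometry.comp
    b.repr.toLinearIsometry).toContinuousLinearMap

lemma shift_apply (f : ℕ × ℕ → ℕ × ℕ) (hf : Function.Injective f) (p : ℕ × ℕ) :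
    shift b f hf (b p) = b (f p) := by
  classical
  change (b.orthonormal.comp f hf).orthogonalFamily.linearIsometry (b.repr (b p)) = b (f p)
  rw [b.repr_self, OrthogonalFamily.linearIsometry_apply_single]
  simp

lemma adjoint_mul_shift (f : ℕ × ℕ → ℕ × ℕ) (hf : Function.Injective f) :
    adjoint (shift b f hf) * shift b f hf = 1 := by
  refine (norm_map_iff_adjoint_comp_self (shift b f hf)).mp fun v => ?_
  exact ((b.orthonormal.comp f hf).orthogonalFamily.linearIsometry.comp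
    b.repr.toLinearIsometry).norm_map v

lemma adjoint_shift_apply (f : ℕ × ℕ → ℕ × ℕ) (hf : Function.Injective f) (p : ℕ × ℕ) :
    adjoint (shift b f hf) (b (f p)) = b p := by
  rw [← shift_apply b f hf]
  change (adjoint (shift b f hf) * shift b f hf) (b p) = b p
  rw [adjoint_mul_shift]
  rfl

lemma adjoint_shift_apply_of_not_mem (f : ℕ × ℕ → ℕ × ℕ) (hf : Function.Injective f)
    (q : ℕ × ℕ) (hq : ∀ p, f p ≠ q) : adjoint (shift b f hf) (b q) = 0 := by
  refine ext_inner_basis b fun p => ?_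
  rw [adjoint_inner_right, shift_apply, inner_basis, if_neg (hq p), inner_zero_right]

/-- The maps on the index set used for the three isometries. -/
def fS (i : Fin 3) (p : ℕ × ℕ) : ℕ × ℕ := (3 * p.1 + i, p.2)

lemma fS_injective (i : Fin 3) : Function.Injective (fS i) := by
  intro p q h
  have h1 := congrArg Prod.fst h
  have h2 := congrArg Prod.snd h
  simp only [fS] at h1 h2
  exact Prod.ext (by omega) h2

/-- The maps on the index set used for the projections. -/
def fT (j : ℕ) (p : ℕ × ℕ) : ℕ × ℕ := (Nat.pair p.1 p.2, j)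

lemma fT_injective (j : ℕ) : Function.Injective (fT j) := by
  intro p q h
  have h1 := congrArg Prod.fst h
  simp only [fT] at h1
  have h2 := Nat.pair_eq_pair.mp h1
  exact Prod.ext h2.1 h2.2

/-- The three isometries. -/
noncomputable def S (i : Fin 3) : H →L[ℂ] H := shift b (fS i) (fS_injective i)

lemma S_apply (i : Fin 3) (p : ℕ × ℕ) : S b i (b p) = b (fS i p) := shift_apply b _ _ p

lemma S_cuntz : Cuntz (S b) := by
  intro i j
  split_ifs with hij
  · subst hij
    exact adjoint_mul_shift b _ _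
  · refine ext_basis b fun p => ?_
    change adjoint (S b i) (S b j (b p)) = 0
    rw [S_apply]
    refine adjoint_shift_apply_of_not_mem b _ _ _ fun q h => hij ?_
    have h1 := congrArg Prod.fst h
    simp only [fS] at h1
    apply Fin.ext
    have := i.isLt
    have := j.isLt
    omega

/-- The projection `1 ⊗ e_j`. -/
noncomputable def E (j : ℕ) : H →L[ℂ] H :=
  shift b (fT j) (fT_injective j) * adjoint (shift b (fT j) (fT_injective j))

lemma E_apply (j : ℕ) (p : ℕ × ℕ) : E b j (b p) = if p.2 = j then b p else 0 := by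
  change shift b (fT j) (fT_injective j) (adjoint (shift b (fT j) (fT_injective j)) (b p)) = _
  split_ifs with h
  · have e : p = fT j (Nat.unpair p.1) := by
      unfold fT
      rw [Nat.pair_unpair]
      exact Prod.ext rfl h
    conv_lhs => rw [e]
    rw [adjoint_shift_apply, shift_apply, ← e]
  · rw [adjoint_shift_apply_of_not_mem, map_zero]
    intro q hq
    exact h (congrArg Prod.snd hq).symm

lemma E_adjoint (j : ℕ) : adjoint (E b j) = E b j := by
  unfold E
  rw [mul_def, adjoint_comp, adjoint_adjoint]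

lemma E_commute (j : ℕ) (i : Fin 3) : E b j * S b i = S b i * E b j := by
  refine ext_basis b fun p => ?_
  change E b j (S b i (b p)) = S b i (E b j (b p))
  rw [S_apply, E_apply, E_apply]
  have e : (fS i p).2 = p.2 := rfl
  rw [e]
  split_ifs
  · rw [S_apply]
  · rw [map_zero]

/-- The projection `1 ⊗ (e_0 + ⋯ + e_{n-1})`. -/
noncomputable def P (n : ℕ) : H →L[ℂ] H := ∑ j ∈ Finset.range n, E b j

lemma P_apply (n : ℕ) (p : ℕ × ℕ) : P b n (b p) = if p.2 < n then b p else 0 := by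
  unfold P
  rw [sum_apply, Finset.sum_congr rfl fun j _ => E_apply b j p, Finset.sum_ite_eq]
  simp only [Finset.mem_range]

lemma P_adjoint (n : ℕ) : adjoint (P b n) = P b n := by
  unfold P
  rw [map_sum]
  exact Finset.sum_congr rfl fun j _ => E_adjoint b j

lemma P_commute (n : ℕ) (i : Fin 3) : P b n * S b i = S b i * P b n := by
  unfold P
  rw [Finset.sum_mul, Finset.mul_sum]
  exact Finset.sum_congr rfl fun j _ => E_commute b j i

lemma Q_idem (n : ℕ) : (1 - P b n) * (1 - P b n) = 1 - P b n := by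
  refine ext_basis b fun p => ?_
  change b p - P b n (b p) - P b n (b p - P b n (b p)) = b p - P b n (b p)
  rw [P_apply]
  split_ifs with h
  · simp
  · rw [sub_zero, P_apply, if_neg h, sub_zero]

lemma norm_Q_le (n : ℕ) : ‖1 - P b n‖ ≤ 1 := by
  refine opNorm_le_bound _ zero_le_one fun v => ?_
  rw [one_mul]
  obtain ⟨Q, hQ⟩ : ∃ Q : H →L[ℂ] H, Q = 1 - P b n := ⟨_, rfl⟩
  have hQa : adjoint Q = Q := by
    have h1 : adjoint (1 : H →L[ℂ] H) = 1 := by
      have := adjoint_id (𝕜 := ℂ) (E := H)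
      exact this
    rw [hQ, map_sub, P_adjoint, h1]
  have hQQ : Q * Q = Q := by rw [hQ]; exact Q_idem b n
  rw [← hQ]
  have h1 : ⟪Q v, Q v⟫_ℂ = ⟪v, Q v⟫_ℂ := by
    rw [← adjoint_inner_right, hQa]
    change ⟪v, (Q * Q) v⟫_ℂ = _
    rw [hQQ]
  have h2 : ‖Q v‖ * ‖Q v‖ ≤ ‖v‖ * ‖Q v‖ := by
    have h3 := norm_inner_le_norm (𝕜 := ℂ) v (Q v)
    rw [← h1, inner_self_eq_norm_sq_to_K] at h3
    simpa [sq] using h3
  rcases eq_or_lt_of_le (norm_nonneg (Q v)) with h0 | h0
  · rw [← h0]; exact norm_nonneg v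
  · exact le_of_mul_le_mul_right h2 h0

/-- Uniformly bounded operators converging to zero on the basis converge strongly to zero. -/
lemma strong_of_basis {B : ℕ → (H →L[ℂ] H)} {c : ℝ} (hc : ∀ m, ‖B m‖ ≤ c)
    (hB : ∀ p, Tendsto (fun m => B m (b p)) atTop (𝓝 0)) (v : H) :
    Tendsto (fun m => B m v) atTop (𝓝 0) := by
  have hc0 : 0 ≤ c := (norm_nonneg _).trans (hc 0)
  have hspan : ∀ z ∈ Submodule.span ℂ (Set.range b), Tendsto (fun m => B m z) atTop (𝓝 0) := by
    intro z hz
    induction hz using Submodule.span_induction with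
    | mem x hx => obtain ⟨p, rfl⟩ := hx; exact hB p
    | zero => simp
    | add x y _ _ hx hy => simpa using hx.add hy
    | smul a x _ hx => simpa using hx.const_smul a
  rw [Metric.tendsto_atTop]
  intro ε hε
  have hd : Dense (Submodule.span ℂ (Set.range b) : Set H) := by
    rw [Submodule.dense_iff_topologicalClosure_eq_top]
    exact b.dense_span
  obtain ⟨z, hz, hz2⟩ := Metric.dense_iff.mp hd v (ε / (2 * (c + 1))) (by positivity)
  rw [Metric.mem_ball, dist_eq_norm] at hz
  obtain ⟨n₀, hn₀⟩ := Metric.tendsto_atTop.mp (hspan z hz2) (ε / 2) (by positivity)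
  refine ⟨n₀, fun m hm => ?_⟩
  have h1 := hn₀ m hm
  rw [dist_zero_right] at h1 ⊢
  have h2 : ‖B m v‖ ≤ ‖B m z‖ + c * ‖z - v‖ := by
    have e : B m v = B m z + B m (v - z) := by rw [← map_add, add_sub_cancel]
    rw [e]
    refine (norm_add_le _ _).trans (add_le_add le_rfl ?_)
    refine ((B m).le_opNorm _).trans ?_
    rw [norm_sub_rev]
    exact mul_le_mul_of_nonneg_right (hc m) (norm_nonneg _)
  have h3 : c * ‖z - v‖ ≤ ε / 2 := by
    have h4 : (c + 1) * ‖z - v‖ ≤ (c + 1) * (ε / (2 * (c + 1))) :=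
      mul_le_mul_of_nonneg_left hz.le (by linarith)
    have h5 : (c + 1) * (ε / (2 * (c + 1))) = ε / 2 := by field_simp
    have h6 := norm_nonneg (z - v)
    nlinarith
  linarith

lemma Q_strong (v : H) : Tendsto (fun n => (1 - P b n) v) atTop (𝓝 0) := by
  refine strong_of_basis b (norm_Q_le b) (fun p => ?_) v
  refine tendsto_const_nhds.congr' ?_
  filter_upwards [eventually_gt_atTop p.2] with n hn
  change 0 = b p - P b n (b p)
  rw [P_apply, if_pos hn, sub_self]

/-- For compact `X`, `‖X (1 - P n)‖ → 0`. -/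
lemma compact_mul_Q {X : H →L[ℂ] H} (hX : IsCompactOperator X) :
    Tendsto (fun n => ‖X * (1 - P b n)‖) atTop (𝓝 0) := by
  have hop : ∀ l : List (H × H), Tendsto (fun n => ‖op l * (1 - P b n)‖) atTop (𝓝 0) := by
    intro l
    induction l with
    | nil => simp
    | cons p l ih =>
      have h1 : Tendsto (fun n => ‖rankOne ℂ p.1 p.2 * (1 - P b n)‖) atTop (𝓝 0) := by
        have h2 : ∀ n, ‖rankOne ℂ p.1 p.2 * (1 - P b n)‖ = ‖p.1‖ * ‖(1 - P b n) p.2‖ := by
          intro n
          have h3 : adjoint (1 - P b n) = 1 - P b n := by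
            have h1 : adjoint (1 : H →L[ℂ] H) = 1 := adjoint_id (𝕜 := ℂ) (E := H)
            rw [map_sub, P_adjoint, h1]
          rw [mul_def, rankOne_comp, norm_rankOne, h3]
        simp only [h2]
        have h4 := ((Q_strong b p.2).norm).const_mul ‖p.1‖
        simpa using h4
      have h5 := h1.add ih
      rw [add_zero] at h5
      refine squeeze_zero (fun _ => norm_nonneg _) (fun n => ?_) h5
      rw [op_cons, add_mul]
      exact norm_add_le _ _
  rw [Metric.tendsto_atTop]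
  intro ε hε
  obtain ⟨l, hl⟩ := approx_of_compact hX (half_pos hε)
  obtain ⟨n₀, hn₀⟩ := Metric.tendsto_atTop.mp (hop l) (ε / 2) (half_pos hε)
  refine ⟨n₀, fun n hn => ?_⟩
  have h1 := hn₀ n hn
  rw [dist_zero_right, norm_norm] at h1 ⊢
  have e : X * (1 - P b n) = (X - op l) * (1 - P b n) + op l * (1 - P b n) := by
    rw [sub_mul, sub_add_cancel]
  have h2 : ‖(X - op l) * (1 - P b n)‖ ≤ ε / 2 := by
    refine (norm_mul_le _ _).trans ?_
    calc ‖X - op l‖ * ‖1 - P b n‖ ≤ (ε / 2) * 1 :=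
          mul_le_mul hl (norm_Q_le b n) (norm_nonneg _) (by positivity)
      _ = ε / 2 := mul_one _
  rw [e]
  refine (norm_add_le _ _).trans_lt ?_
  linarith

end Basis

/-! ### The approximate unit with bounded commutators -/

/-- The number of base three digits. -/
def lev (k : ℕ) : ℕ := Nat.clog 3 (k + 1)

lemma lev_le_iff (k m : ℕ) : lev k ≤ m ↔ k < 3 ^ m := by
  unfold lev
  rw [Nat.clog_le_iff_le_pow (by norm_num)]
  omega

lemma lev_step_le (k : ℕ) (i : Fin 3) : lev (3 * k + i) ≤ lev k + 1 := by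
  have h1 := (lev_le_iff k (lev k)).mp le_rfl
  rw [lev_le_iff, pow_succ]
  have := i.isLt
  omega

lemma le_lev_step (k : ℕ) (i : Fin 3) : lev k ≤ lev (3 * k + i) := by
  have h1 := (lev_le_iff (3 * k + i) (lev (3 * k + i))).mp le_rfl
  rw [lev_le_iff]
  omega

/-- The diagonal weights. -/
noncomputable def wt (m : ℕ) (p : ℕ × ℕ) : ℝ :=
  if p.2 < m then max 0 (1 - (lev p.1 : ℝ) / m) else 0

lemma wt_nonneg (m : ℕ) (p : ℕ × ℕ) : 0 ≤ wt m p := by
  unfold wt; split_ifs
  · exact le_max_left _ _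
  · exact le_rfl

lemma wt_le_one (m : ℕ) (p : ℕ × ℕ) : wt m p ≤ 1 := by
  unfold wt; split_ifs
  · refine max_le zero_le_one ?_
    have : (0 : ℝ) ≤ (lev p.1 : ℝ) / m := by positivity
    linarith
  · exact zero_le_one

lemma wt_mono (p : ℕ × ℕ) {m n : ℕ} (h : m ≤ n) : wt m p ≤ wt n p := by
  unfold wt
  by_cases h1 : p.2 < m
  · rw [if_pos h1, if_pos (h1.trans_le h)]
    refine max_le_max le_rfl ?_
    have hm : (0 : ℝ) < m := by exact_mod_cast (Nat.zero_le _).trans_lt h1
    have hmn : (m : ℝ) ≤ n := by exact_mod_cast h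
    have : (lev p.1 : ℝ) / n ≤ (lev p.1 : ℝ) / m :=
      div_le_div_of_nonneg_left (by positivity) hm hmn
    linarith
  · rw [if_neg h1]
    exact wt_nonneg n p

/-- The finite set of indices with nonzero weight. -/
def Fm (m : ℕ) : Finset (ℕ × ℕ) := Finset.range (3 ^ m) ×ˢ Finset.range m

lemma wt_eq_zero {m : ℕ} {p : ℕ × ℕ} (hp : p ∉ Fm m) : wt m p = 0 := by
  unfold wt
  split_ifs with h
  · have h1 : ¬ p.1 < 3 ^ m := by
      intro h1
      exact hp (Finset.mem_product.mpr ⟨Finset.mem_range.mpr h1, Finset.mem_range.mpr h⟩)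
    rw [← lev_le_iff] at h1
    refine max_eq_left ?_
    have hm : (0 : ℝ) < m := by exact_mod_cast (Nat.zero_le _).trans_lt h
    have h2 : (m : ℝ) ≤ lev p.1 := by exact_mod_cast (not_le.mp h1).le
    have : 1 ≤ (lev p.1 : ℝ) / m := by rwa [le_div_iff₀ hm, one_mul]
    linarith
  · rfl

lemma Fm_card (m : ℕ) : (Fm m).card = 3 ^ m * m := by
  unfold Fm
  rw [Finset.card_product, Finset.card_range, Finset.card_range]

lemma Fm_mono {m n : ℕ} (h : m ≤ n) : Fm m ⊆ Fm n := by
  intro p hp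
  unfold Fm at *
  rw [Finset.mem_product, Finset.mem_range, Finset.mem_range] at *
  exact ⟨hp.1.trans_le (Nat.pow_le_pow_right (by norm_num) h), hp.2.trans_le h⟩

lemma fS_mem {m : ℕ} {p : ℕ × ℕ} (i : Fin 3) (h : fS i p ∈ Fm m) : p ∈ Fm m := by
  unfold Fm fS at *
  rw [Finset.mem_product, Finset.mem_range, Finset.mem_range] at *
  refine ⟨?_, h.2⟩
  have := h.1
  simp only at this
  omega

lemma wt_tendsto (p : ℕ × ℕ) : Tendsto (fun m => wt m p) atTop (𝓝 1) := by
  have h1 : Tendsto (fun m : ℕ => max 0 (1 - (lev p.1 : ℝ) / m)) atTop (𝓝 (max 0 (1 - 0))) :=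
    tendsto_const_nhds.max (tendsto_const_nhds.sub (tendsto_const_div_atTop_nhds_zero_nat _))
  rw [sub_zero, max_eq_right zero_le_one] at h1
  refine h1.congr' ?_
  filter_upwards [eventually_gt_atTop p.2] with m hm
  unfold wt
  rw [if_pos hm]

lemma wt_diff (m : ℕ) (p : ℕ × ℕ) (i : Fin 3) : |wt m (fS i p) - wt m p| ≤ 1 / m := by
  unfold wt
  have e : (fS i p).2 = p.2 := rfl
  rw [e]
  by_cases h : p.2 < m
  · rw [if_pos h, if_pos h]
    rw [max_comm 0, max_comm 0]
    refine (abs_max_sub_max_le_abs (_ : ℝ) _ _).trans ?_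
    have hm : (0 : ℝ) < m := by exact_mod_cast (Nat.zero_le _).trans_lt h
    have e2 : (fS i p).1 = 3 * p.1 + i := rfl
    rw [e2]
    have h1 : (lev (3 * p.1 + i) : ℝ) ≤ lev p.1 + 1 := by exact_mod_cast lev_step_le p.1 i
    have h2 : (lev p.1 : ℝ) ≤ lev (3 * p.1 + i) := by exact_mod_cast le_lev_step p.1 i
    have e3 : 1 - (lev (3 * p.1 + i) : ℝ) / m - (1 - (lev p.1 : ℝ) / m) =
        -(((lev (3 * p.1 + i) : ℝ) - lev p.1) / m) := by ring
    rw [e3, abs_neg, abs_of_nonneg (div_nonneg (by linarith) hm.le)]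
    exact div_le_div_of_nonneg_right (by linarith) hm.le
  · rw [if_neg h, if_neg h, sub_zero, abs_zero]
    positivity

section Units

variable (b : HilbertBasis (ℕ × ℕ) ℂ H)

/-- The finite rank operators of the approximate unit. -/
noncomputable def A (m : ℕ) : H →L[ℂ] H :=
  ∑ p ∈ Fm m, (wt m p : ℂ) • rankOne ℂ (b p) (b p)

lemma A_apply (m : ℕ) (q : ℕ × ℕ) : A b m (b q) = (wt m q : ℂ) • b q := by
  unfold A
  rw [sum_apply]
  have h1 : ∀ p, ((wt m p : ℂ) • rankOne ℂ (b p) (b p)) (b q) =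
      if p = q then (wt m q : ℂ) • b q else 0 := by
    intro p
    rw [smul_apply, rankOne_apply, inner_basis]
    split_ifs with h
    · subst h; rw [one_smul]
    · rw [zero_smul, smul_zero]
  rw [Finset.sum_congr rfl fun p _ => h1 p, Finset.sum_ite_eq']
  split_ifs with h
  · rfl
  · rw [wt_eq_zero h]; simp

lemma finiteRank_smul {X : H →L[ℂ] H} (hX : FiniteRank X) (c : ℂ) : FiniteRank (c • X) := by
  have : FiniteDimensional ℂ (LinearMap.range X.toLinearMap) := hX
  refine finiteRank_of_range_le (LinearMap.range X.toLinearMap) fun v => ?_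
  exact Submodule.smul_mem _ _ ⟨v, rfl⟩

lemma finiteRank_sum {ι : Type*} (s : Finset ι) (f : ι → (H →L[ℂ] H))
    (hf : ∀ i ∈ s, FiniteRank (f i)) : FiniteRank (∑ i ∈ s, f i) := by
  classical
  induction s using Finset.induction_on with
  | empty => simpa using finiteRank_zero
  | insert i s his ih =>
    rw [Finset.sum_insert his]
    exact finiteRank_add (hf i (Finset.mem_insert_self i s))
      (ih fun j hj => hf j (Finset.mem_insert_of_mem hj))

lemma A_finiteRank (m : ℕ) : FiniteRank (A b m) :=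
  finiteRank_sum _ _ fun _ _ => finiteRank_smul (finiteRank_rankOne _ _) _

lemma isPositive_sum {ι : Type*} (s : Finset ι) (f : ι → (H →L[ℂ] H))
    (hf : ∀ i ∈ s, (f i).IsPositive) : (∑ i ∈ s, f i).IsPositive := by
  classical
  induction s using Finset.induction_on with
  | empty => simp
  | insert i s his ih =>
    rw [Finset.sum_insert his]
    exact (hf i (Finset.mem_insert_self i s)).add
      (ih fun j hj => hf j (Finset.mem_insert_of_mem hj))

lemma diag_isPositive (s : Finset (ℕ × ℕ)) (c : ℕ × ℕ → ℝ) (hc : ∀ p ∈ s, 0 ≤ c p) :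
    (∑ p ∈ s, (c p : ℂ) • rankOne ℂ (b p) (b p)).IsPositive :=
  isPositive_sum _ _ fun p hp =>
    (isPositive_rankOne_self (b p)).smul_of_nonneg (by exact_mod_cast hc p hp)

lemma A_nonneg (m : ℕ) : 0 ≤ A b m := by
  rw [nonneg_iff_isPositive]
  exact diag_isPositive b _ _ fun p _ => wt_nonneg m p

lemma A_mono : Monotone (A b) := by
  intro m n hmn
  rw [ContinuousLinearMap.le_def]
  have h1 : A b n - A b m = ∑ p ∈ Fm n, ((wt n p - wt m p : ℝ) : ℂ) • rankOne ℂ (b p) (b p) := by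
    refine ext_basis b fun q => ?_
    rw [sub_apply, A_apply, A_apply, sum_apply]
    have h2 : ∀ p, (((wt n p - wt m p : ℝ) : ℂ) • rankOne ℂ (b p) (b p)) (b q) =
        if p = q then ((wt n q - wt m q : ℝ) : ℂ) • b q else 0 := by
      intro p
      rw [smul_apply, rankOne_apply, inner_basis]
      split_ifs with h
      · subst h; rw [one_smul]
      · rw [zero_smul, smul_zero]
    rw [Finset.sum_congr rfl fun p _ => h2 p, Finset.sum_ite_eq', ← sub_smul]
    split_ifs with h
    · push_cast; rfl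
    · rw [wt_eq_zero h, wt_eq_zero fun h' => h (Fm_mono hmn h')]; simp
  rw [h1]
  exact diag_isPositive b _ _ fun p _ => sub_nonneg.mpr (wt_mono p hmn)

lemma A_le_one (m : ℕ) : A b m ≤ 1 := by
  rw [ContinuousLinearMap.le_def, isPositive_def]
  have hsym : (A b m).IsPositive := (nonneg_iff_isPositive _).mp (A_nonneg b m)
  refine ⟨?_, fun x => ?_⟩
  · have h1 : IsSelfAdjoint (1 - A b m) := by
      exact (IsSelfAdjoint.one _).sub hsym.isSelfAdjoint
    exact h1.isSymmetric
  · have h1 : ⟪A b m x, x⟫_ℂ = ((∑ p ∈ Fm m, wt m p * ‖⟪b p, x⟫_ℂ‖ ^ 2 : ℝ) : ℂ) := by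
      unfold A
      rw [sum_apply, sum_inner, Complex.ofReal_sum]
      refine Finset.sum_congr rfl fun p _ => ?_
      rw [smul_apply, rankOne_apply, inner_smul_left, inner_smul_left, Complex.ofReal_mul]
      rw [Complex.conj_ofReal]
      congr 1
      rw [Complex.conj_mul']
      norm_cast
    have h2 : reApplyInnerSelf (1 - A b m) x = ‖x‖ ^ 2 -
        ∑ p ∈ Fm m, wt m p * ‖⟪b p, x⟫_ℂ‖ ^ 2 := by
      rw [reApplyInnerSelf_apply, sub_apply, inner_sub_left, h1]
      change RCLike.re (⟪x, x⟫_ℂ - _) = _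
      rw [map_sub, inner_self_eq_norm_sq]
      congr 1
    rw [h2]
    have h3 : ∑ p ∈ Fm m, wt m p * ‖⟪b p, x⟫_ℂ‖ ^ 2 ≤ ∑ p ∈ Fm m, ‖⟪b p, x⟫_ℂ‖ ^ 2 :=
      Finset.sum_le_sum fun p _ => mul_le_of_le_one_left (by positivity) (wt_le_one m p)
    have h4 := b.orthonormal.sum_inner_products_le x (s := Fm m)
    linarith

end Units

section Final

variable (b : HilbertBasis (ℕ × ℕ) ℂ H)

lemma norm_wsum_le (s : Finset (ℕ × ℕ)) (c : ℕ × ℕ → ℝ) {ε : ℝ} (hε : 0 ≤ ε)
    (hc : ∀ p ∈ s, |c p| ≤ ε) (f : ℕ × ℕ → ℕ × ℕ) (hf : Function.Injective f) :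
    ‖∑ p ∈ s, (c p : ℂ) • rankOne ℂ (b (f p)) (b p)‖ ≤ ε := by
  refine opNorm_le_bound _ hε fun v => ?_
  have h1 : (∑ p ∈ s, (c p : ℂ) • rankOne ℂ (b (f p)) (b p)) v =
      ∑ p ∈ s, ((c p : ℂ) * ⟪b p, v⟫_ℂ) • b (f p) := by
    rw [sum_apply]
    refine Finset.sum_congr rfl fun p _ => ?_
    rw [smul_apply, rankOne_apply, smul_smul]
  rw [h1]
  have h2 := (b.orthonormal.comp f hf).inner_sum (fun p => (c p : ℂ) * ⟪b p, v⟫_ℂ)
    (fun p => (c p : ℂ) * ⟪b p, v⟫_ℂ) s
  have h3 : ‖∑ p ∈ s, ((c p : ℂ) * ⟪b p, v⟫_ℂ) • b (f p)‖ ^ 2 =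
      ∑ p ∈ s, (c p) ^ 2 * ‖⟪b p, v⟫_ℂ‖ ^ 2 := by
    apply Complex.ofReal_injective
    have h4 := inner_self_eq_norm_sq_to_K (𝕜 := ℂ) (∑ p ∈ s, ((c p : ℂ) * ⟪b p, v⟫_ℂ) • b (f p))
    rw [Complex.ofReal_pow, Complex.ofReal_sum]
    refine h4.symm.trans (h2.trans ?_)
    refine Finset.sum_congr rfl fun p _ => ?_
    rw [Complex.conj_mul', norm_mul, Complex.norm_real, Real.norm_eq_abs, ← Complex.ofReal_pow,
      mul_pow, sq_abs]
  have h4 : ∑ p ∈ s, (c p) ^ 2 * ‖⟪b p, v⟫_ℂ‖ ^ 2 ≤ (ε * ‖v‖) ^ 2 := by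
    have h5 := b.orthonormal.sum_inner_products_le v (s := s)
    calc ∑ p ∈ s, (c p) ^ 2 * ‖⟪b p, v⟫_ℂ‖ ^ 2 ≤ ∑ p ∈ s, ε ^ 2 * ‖⟪b p, v⟫_ℂ‖ ^ 2 := by
          refine Finset.sum_le_sum fun p hp => mul_le_mul_of_nonneg_right ?_ (by positivity)
          rw [← sq_abs]
          exact pow_le_pow_left₀ (abs_nonneg _) (hc p hp) 2
      _ = ε ^ 2 * ∑ p ∈ s, ‖⟪b p, v⟫_ℂ‖ ^ 2 := by rw [Finset.mul_sum]
      _ ≤ ε ^ 2 * ‖v‖ ^ 2 := mul_le_mul_of_nonneg_left h5 (by positivity)
      _ = (ε * ‖v‖) ^ 2 := by ring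
  rw [← h3] at h4
  exact abs_le_of_sq_le_sq' h4 (by positivity) |>.2

lemma norm_A_le (m : ℕ) : ‖A b m‖ ≤ 1 :=
  norm_wsum_le b (Fm m) (wt m) zero_le_one
    (fun p _ => by rw [abs_of_nonneg (wt_nonneg m p)]; exact wt_le_one m p) id
    Function.injective_id

lemma A_strong (v : H) : Tendsto (fun m => A b m v) atTop (𝓝 v) := by
  have h1 : Tendsto (fun m => (A b m - 1) v) atTop (𝓝 0) := by
    refine strong_of_basis b (c := 2) (fun m => ?_) (fun p => ?_) v
    · have h2 : ‖(1 : H →L[ℂ] H)‖ ≤ 1 := norm_id_le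
      have := norm_sub_le (A b m) 1
      have := norm_A_le b m
      linarith
    · have h3 : ∀ m, (A b m - 1) (b p) = ((wt m p : ℂ) - 1) • b p := by
        intro m
        rw [sub_smul, one_smul, ← A_apply]
        rfl
      simp only [h3]
      have h4 : Tendsto (fun m => ((wt m p : ℂ) - 1)) atTop (𝓝 0) := by
        have h5 : Tendsto (fun m => ((wt m p - 1 : ℝ) : ℂ)) atTop (𝓝 (((1 - 1 : ℝ)) : ℂ)) :=
          (Complex.continuous_ofReal.tendsto _).comp ((wt_tendsto p).sub tendsto_const_nhds)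
        simpa using h5
      simpa using h4.smul_const (b p)
  have h2 := h1.add (tendsto_const_nhds (x := v))
  rw [zero_add] at h2
  refine h2.congr fun m => ?_
  change A b m v - v + v = A b m v
  rw [sub_add_cancel]

lemma comm_eq (m : ℕ) (i : Fin 3) : A b m * S b i - S b i * A b m =
    ∑ p ∈ Fm m, ((wt m (fS i p) - wt m p : ℝ) : ℂ) • rankOne ℂ (b (fS i p)) (b p) := by
  refine ext_basis b fun q => ?_
  have h1 : (A b m * S b i - S b i * A b m) (b q) =
      ((wt m (fS i q) - wt m q : ℝ) : ℂ) • b (fS i q) := by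
    change A b m (S b i (b q)) - S b i (A b m (b q)) = _
    rw [S_apply, A_apply, A_apply, map_smul, S_apply, ← sub_smul]
    push_cast
    rfl
  rw [h1, sum_apply]
  have h2 : ∀ p, (((wt m (fS i p) - wt m p : ℝ) : ℂ) • rankOne ℂ (b (fS i p)) (b p)) (b q) =
      if p = q then ((wt m (fS i q) - wt m q : ℝ) : ℂ) • b (fS i q) else 0 := by
    intro p
    rw [smul_apply, rankOne_apply, inner_basis]
    split_ifs with h
    · subst h; rw [one_smul]
    · rw [zero_smul, smul_zero]
  rw [Finset.sum_congr rfl fun p _ => h2 p, Finset.sum_ite_eq']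
  split_ifs with h
  · rfl
  · rw [wt_eq_zero h, wt_eq_zero fun h' => h (fS_mem i h')]; simp

lemma comm_finiteRank (m : ℕ) (i : Fin 3) : FiniteRank (A b m * S b i - S b i * A b m) := by
  rw [comm_eq]
  exact finiteRank_sum _ _ fun _ _ => finiteRank_smul (finiteRank_rankOne _ _) _

lemma comm_kt (m : ℕ) (i : Fin 3) (n : ℕ) :
    kt (A b m * S b i - S b i * A b m) n ≤ (1 / 3) ^ n * 3 ^ m := by
  have h1 : A b m * S b i - S b i * A b m =
      op ((Fm m).toList.map fun p => (((wt m (fS i p) - wt m p : ℝ) : ℂ) • b (fS i p), b p)) := by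
    rw [comm_eq]
    unfold op
    rw [List.map_map, ← Finset.sum_map_toList]
    congr 1
    refine List.map_congr_left fun p _ => ?_
    simp only [Function.comp_apply, map_smul, smul_apply]
  have h2 : nu ((Fm m).toList.map fun p =>
      (((wt m (fS i p) - wt m p : ℝ) : ℂ) • b (fS i p), b p)) ≤ 3 ^ m := by
    unfold nu
    rw [List.map_map, Finset.sum_map_toList]
    have h3 : ∀ p ∈ Fm m, ((fun p : H × H => ‖p.1‖ * ‖p.2‖) ∘ fun p =>
        (((wt m (fS i p) - wt m p : ℝ) : ℂ) • b (fS i p), b p)) p ≤ 1 / m := by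
      intro p _
      simp only [Function.comp_apply]
      rw [norm_smul, Complex.norm_real, b.orthonormal.1, b.orthonormal.1, mul_one, mul_one]
      exact wt_diff m p i
    refine (Finset.sum_le_card_nsmul _ _ _ h3).trans ?_
    rw [Fm_card, nsmul_eq_mul]
    rcases Nat.eq_zero_or_pos m with h0 | h0
    · subst h0; simp
    · have hm : (0 : ℝ) < m := by exact_mod_cast h0
      push_cast
      rw [mul_assoc, mul_one_div_cancel hm.ne', mul_one]
  rw [h1]
  exact (kt_op_le _ n).trans (mul_le_mul_of_nonneg_left h2 (by positivity))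

lemma comm_norm_le (m : ℕ) (i : Fin 3) : ‖A b m * S b i - S b i * A b m‖ ≤ 1 / m := by
  rw [comm_eq]
  exact norm_wsum_le b (Fm m) (fun p => wt m (fS i p) - wt m p) (by positivity)
    (fun p _ => wt_diff m p i) (fS i) (fS_injective i)

lemma comm_N_le (m : ℕ) (i : Fin 3) : N (A b m * S b i - S b i * A b m) ≤ 5 / 3 := by
  have hmem : Mem (A b m * S b i - S b i * A b m) := mem_finiteRank (comm_finiteRank b m i)
  have h1 : ∑ n ∈ Finset.range m, kt (A b m * S b i - S b i * A b m) n ≤ 1 := by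
    have h2 : ∀ n ∈ Finset.range m, kt (A b m * S b i - S b i * A b m) n ≤ 1 / m :=
      fun n _ => (kt_le_norm _ n).trans (comm_norm_le b m i)
    refine (Finset.sum_le_card_nsmul _ _ _ h2).trans ?_
    rw [Finset.card_range, nsmul_eq_mul]
    rcases Nat.eq_zero_or_pos m with h0 | h0
    · subst h0; simp
    · have hm : (0 : ℝ) < m := by exact_mod_cast h0
      rw [mul_one_div_cancel hm.ne']
  have h2 : ∑' n, kt (A b m * S b i - S b i * A b m) (n + m) ≤ 3 / 2 := by
    have h3 : ∀ n, kt (A b m * S b i - S b i * A b m) (n + m) ≤ (1 / 3) ^ n := by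
      intro n
      refine (comm_kt b m i (n + m)).trans (le_of_eq ?_)
      rw [pow_add, mul_assoc, third_pow_mul, mul_one]
    rw [← tsum_third]
    exact Summable.tsum_le_tsum h3 ((summable_nat_add_iff m).mpr hmem) summable_third
  have h3 := hmem.sum_add_tsum_nat_add m
  unfold N
  linarith

/-- The tuple of hermitian operators. -/
noncomputable def tau : Fin (3 + 3) → (H →L[ℂ] H) :=
  Fin.append (fun i => S b i + adjoint (S b i)) (fun i => Complex.I • (S b i - adjoint (S b i)))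

lemma tau_left (i : Fin 3) : tau b (Fin.castAdd 3 i) = S b i + adjoint (S b i) :=
  Fin.append_left _ _ i

lemma tau_right (i : Fin 3) :
    tau b (Fin.natAdd 3 i) = Complex.I • (S b i - adjoint (S b i)) := Fin.append_right _ _ i

lemma tau_selfAdjoint (j : Fin (3 + 3)) : IsSelfAdjoint (tau b j) := by
  rw [isSelfAdjoint_iff']
  refine Fin.addCases (fun i => ?_) (fun i => ?_) j
  · rw [tau_left, map_add, adjoint_adjoint, add_comm]
  · rw [tau_right]
    have h1 : adjoint (Complex.I • (S b i - adjoint (S b i))) =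
        (starRingEnd ℂ) Complex.I • adjoint (S b i - adjoint (S b i)) := map_smulₛₗ _ _ _
    rw [h1, map_sub, adjoint_adjoint, Complex.conj_I, neg_smul, ← smul_neg, neg_sub]

lemma S_eq (i : Fin 3) : S b i = (1 / 2 : ℂ) • tau b (Fin.castAdd 3 i) +
    (-(Complex.I / 2)) • tau b (Fin.natAdd 3 i) := by
  rw [tau_left, tau_right, smul_smul]
  have e : -(Complex.I / 2) * Complex.I = 1 / 2 := by
    have := Complex.I_mul_I
    linear_combination (-1 / 2 : ℂ) * this
  rw [e, ← smul_add]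
  have e2 : S b i + adjoint (S b i) + (S b i - adjoint (S b i)) = (2 : ℂ) • S b i := by
    rw [two_smul]; abel
  rw [e2, smul_smul]
  norm_num

lemma comm_S_eq (X : H →L[ℂ] H) (i : Fin 3) : X * S b i - S b i * X =
    (1 / 2 : ℂ) • (X * tau b (Fin.castAdd 3 i) - tau b (Fin.castAdd 3 i) * X) +
    (-(Complex.I / 2)) • (X * tau b (Fin.natAdd 3 i) - tau b (Fin.natAdd 3 i) * X) := by
  conv_lhs => rw [S_eq b i]
  simp only [mul_add, add_mul, smul_sub, Algebra.mul_smul_comm, Algebra.smul_mul_assoc]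
  abel

lemma comm_S_mem {X : H →L[ℂ] H} (hX : X ∈ commutantMod (theIdeal H) (tau b)) (i : Fin 3) :
    Mem (X * S b i - S b i * X) := by
  rw [comm_S_eq]
  have h1 : Mem (X * tau b (Fin.castAdd 3 i) - tau b (Fin.castAdd 3 i) * X) := hX _
  have h2 : Mem (X * tau b (Fin.natAdd 3 i) - tau b (Fin.natAdd 3 i) * X) := hX _
  exact (h1.smul _).add (h2.smul _)

lemma comm_S_N {X : H →L[ℂ] H} (hX : X ∈ commutantMod (theIdeal H) (tau b)) (i : Fin 3) :
    N (X * S b i - S b i * X) ≤
      1 / 2 * (N (X * tau b (Fin.castAdd 3 i) - tau b (Fin.castAdd 3 i) * X) +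
      N (X * tau b (Fin.natAdd 3 i) - tau b (Fin.natAdd 3 i) * X)) := by
  rw [comm_S_eq]
  have h1 : Mem (X * tau b (Fin.castAdd 3 i) - tau b (Fin.castAdd 3 i) * X) := hX _
  have h2 : Mem (X * tau b (Fin.natAdd 3 i) - tau b (Fin.natAdd 3 i) * X) := hX _
  refine (N_add_le (h1.smul _) (h2.smul _)).trans ?_
  rw [N_smul h1, N_smul h2]
  have e1 : ‖(1 / 2 : ℂ)‖ = 1 / 2 := by norm_num
  have e2 : ‖(-(Complex.I / 2) : ℂ)‖ = 1 / 2 := by
    rw [norm_neg, norm_div, Complex.norm_I]; norm_num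
  rw [e1, e2]
  linarith

lemma comm_tau_mem {X : H →L[ℂ] H} (h1 : ∀ i, Mem (X * S b i - S b i * X))
    (h2 : ∀ i, Mem (X * adjoint (S b i) - adjoint (S b i) * X)) :
    X ∈ commutantMod (theIdeal H) (tau b) := by
  intro j
  change Mem _
  refine Fin.addCases (fun i => ?_) (fun i => ?_) j
  · have e : X * tau b (Fin.castAdd 3 i) - tau b (Fin.castAdd 3 i) * X =
        (X * S b i - S b i * X) + (X * adjoint (S b i) - adjoint (S b i) * X) := by
      rw [tau_left, mul_add, add_mul]; abel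
    rw [e]
    exact (h1 i).add (h2 i)
  · have e : X * tau b (Fin.natAdd 3 i) - tau b (Fin.natAdd 3 i) * X =
        Complex.I • ((X * S b i - S b i * X) - (X * adjoint (S b i) - adjoint (S b i) * X)) := by
      rw [tau_right, Algebra.mul_smul_comm, Algebra.smul_mul_assoc, ← smul_sub, mul_sub, sub_mul]
      congr 1
      abel
    rw [e]
    exact ((h1 i).sub (h2 i)).smul _

end Final

/-! ### The modulus and the failure of saturation -/

section Conclusion

variable (b : HilbertBasis (ℕ × ℕ) ℂ H)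

lemma A_comm_adjoint (m : ℕ) (i : Fin 3) : A b m * adjoint (S b i) - adjoint (S b i) * A b m =
    (-1 : ℂ) • adjoint (A b m * S b i - S b i * A b m) := by
  have h1 : adjoint (A b m) = A b m := by
    have := ((nonneg_iff_isPositive _).mp (A_nonneg b m)).isSelfAdjoint
    rwa [isSelfAdjoint_iff'] at this
  rw [map_sub, mul_def, mul_def, mul_def, mul_def, adjoint_comp, adjoint_comp, h1, neg_smul,
    one_smul, neg_sub]

lemma A_mem (m : ℕ) : A b m ∈ commutantMod (theIdeal H) (tau b) := by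
  refine comm_tau_mem b (fun i => mem_finiteRank (comm_finiteRank b m i)) fun i => ?_
  rw [A_comm_adjoint]
  exact (mem_finiteRank (comm_finiteRank b m i)).adjoint.smul _

lemma A_comm_tau_N (m : ℕ) (j : Fin (3 + 3)) :
    N (A b m * tau b j - tau b j * A b m) ≤ 10 / 3 := by
  have h1 : ∀ i, Mem (A b m * S b i - S b i * A b m) :=
    fun i => mem_finiteRank (comm_finiteRank b m i)
  have h2 : ∀ i, Mem (A b m * adjoint (S b i) - adjoint (S b i) * A b m) := by
    intro i
    rw [A_comm_adjoint]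
    exact (h1 i).adjoint.smul _
  have h3 : ∀ i, N (A b m * adjoint (S b i) - adjoint (S b i) * A b m) ≤ 5 / 3 := by
    intro i
    rw [A_comm_adjoint, N_smul (h1 i).adjoint, norm_neg, norm_one, one_mul]
    exact (N_adjoint_le (h1 i)).trans (comm_N_le b m i)
  refine Fin.addCases (fun i => ?_) (fun i => ?_) j
  · have e : A b m * tau b (Fin.castAdd 3 i) - tau b (Fin.castAdd 3 i) * A b m =
        (A b m * S b i - S b i * A b m) +
        (A b m * adjoint (S b i) - adjoint (S b i) * A b m) := by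
      rw [tau_left, mul_add, add_mul]; abel
    rw [e]
    have := N_add_le (h1 i) (h2 i)
    have := comm_N_le b m i
    have := h3 i
    linarith
  · have e : A b m * tau b (Fin.natAdd 3 i) - tau b (Fin.natAdd 3 i) * A b m =
        Complex.I • ((A b m * S b i - S b i * A b m) -
        (A b m * adjoint (S b i) - adjoint (S b i) * A b m)) := by
      rw [tau_right, Algebra.mul_smul_comm, Algebra.smul_mul_assoc, ← smul_sub, mul_sub, sub_mul]
      congr 1
      abel
    rw [e, N_smul ((h1 i).sub (h2 i)), Complex.norm_I, one_mul]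
    have := N_sub_le (h1 i) (h2 i)
    have := comm_N_le b m i
    have := h3 i
    linarith

lemma modulus_lt_top : modulus (theIdeal H) (tau b) < ⊤ := by
  obtain ⟨u, hu⟩ : ∃ u : ℕ → ℝ≥0∞, ∀ m, u m =
      ⨆ j, ENNReal.ofReal (N (A b m * tau b j - tau b j * A b m)) := ⟨_, fun _ => rfl⟩
  have hle : ∀ m, u m ≤ ENNReal.ofReal (10 / 3) := by
    intro m
    rw [hu]
    exact iSup_le fun j => ENNReal.ofReal_le_ofReal (A_comm_tau_N b m j)
  obtain ⟨a, φ, hφ, ha⟩ := CompactSpace.tendsto_subseq u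
  have h1 : modulus (theIdeal H) (tau b) ≤ a := by
    refine sInf_le ⟨fun m => A b (φ m), fun m => ⟨A_finiteRank b _, A_nonneg b _, A_le_one b _⟩,
      (A_mono b).comp hφ.monotone, fun v => (A_strong b v).comp hφ.tendsto_atTop, ?_⟩
    refine ha.congr fun m => ?_
    rw [Function.comp_apply, hu]
    rfl
  have h2 : a ≤ ENNReal.ofReal (10 / 3) := le_of_tendsto' ha fun m => hle (φ m)
  exact (h1.trans h2).trans_lt ENNReal.ofReal_lt_top

lemma norm_le_max {X : H →L[ℂ] H} (hX : FiniteRank X)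
    (hm : X ∈ commutantMod (theIdeal H) (tau b)) :
    ENNReal.ofReal (2 / 3 * ‖X‖) ≤ ⨆ j, ENNReal.ofReal (N (X * tau b j - tau b j * X)) := by
  obtain ⟨M, hM⟩ : ∃ M, M = ⨆ j, ENNReal.ofReal (N (X * tau b j - tau b j * X)) := ⟨_, rfl⟩
  rw [← hM]
  by_cases hT : M = ⊤
  · rw [hT]; exact le_top
  have h1 : ∀ j, N (X * tau b j - tau b j * X) ≤ M.toReal := by
    intro j
    have h2 : ENNReal.ofReal (N (X * tau b j - tau b j * X)) ≤ M := by
      rw [hM]; exact le_iSup (fun j => ENNReal.ofReal (N (X * tau b j - tau b j * X))) j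
    exact (ENNReal.ofReal_le_iff_le_toReal hT).mp h2
  have h2 : ‖X‖ ≤ 1 / 2 * ∑ i, N (X * S b i - S b i * X) := by
    obtain ⟨l, hl⟩ := exists_op_of_finiteRank hX
    have hc : IsCompactOperator X := by rw [← hl]; exact compact_op l
    exact (S_cuntz b).norm_le_sum hc (comm_S_mem b hm)
  have h3 : ∑ i : Fin 3, N (X * S b i - S b i * X) ≤ ∑ i : Fin 3, M.toReal := by
    refine Finset.sum_le_sum fun i _ => ?_
    have := comm_S_N b hm i
    have := h1 (Fin.castAdd 3 i)
    have := h1 (Fin.natAdd 3 i)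
    linarith
  rw [Finset.sum_const, Finset.card_univ, Fintype.card_fin, nsmul_eq_mul] at h3
  push_cast at h3
  rw [ENNReal.ofReal_le_iff_le_toReal hT]
  linarith

lemma modulus_pos : 0 < modulus (theIdeal H) (tau b) := by
  have h1 : ENNReal.ofReal (2 / 3) ≤ modulus (theIdeal H) (tau b) := by
    refine le_sInf ?_
    rintro C ⟨A', hA, -, hA2, hA3⟩
    have hv : ‖b (0, 0)‖ = 1 := b.orthonormal.1 _
    have h2 : Tendsto (fun m => ENNReal.ofReal (2 / 3 * ‖A' m (b (0, 0))‖)) atTop
        (𝓝 (ENNReal.ofReal (2 / 3 * 1))) := by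
      refine ENNReal.tendsto_ofReal ?_
      have := (hA2 (b (0, 0))).norm
      rw [hv] at this
      exact this.const_mul _
    rw [mul_one] at h2
    refine le_of_tendsto_of_tendsto' h2 hA3 fun m => ?_
    have h3 : A' m ∈ commutantMod (theIdeal H) (tau b) := by
      intro j
      change Mem _
      have h4 : Mem (A' m) := mem_finiteRank (hA m).1
      have h5 : Mem (A' m * tau b j) := by
        have := h4.mul 1 (tau b j)
        rwa [one_mul] at this
      have h6 : Mem (tau b j * A' m) := by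
        have := h4.mul (tau b j) 1
        rwa [mul_one] at this
      exact h5.sub h6
    refine le_trans (ENNReal.ofReal_le_ofReal ?_) (norm_le_max b (hA m).1 h3)
    have h4 := (A' m).le_opNorm (b (0, 0))
    rw [hv, mul_one] at h4
    linarith
  exact (ENNReal.ofReal_pos.mpr (by norm_num)).trans_le h1

lemma P_sub_eq {n l : ℕ} (h : n ≤ l) : P b l - P b n = (1 - P b n) * P b l := by
  refine ext_basis b fun p => ?_
  change P b l (b p) - P b n (b p) = P b l (b p) - P b n (P b l (b p))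
  rw [P_apply b l]
  split_ifs with h1
  · rfl
  · rw [map_zero, P_apply, if_neg fun h2 => h1 (h2.trans_le h)]

lemma norm_P_le (n : ℕ) : ‖P b n‖ ≤ 1 := by
  refine opNorm_le_bound _ zero_le_one fun v => ?_
  rw [one_mul]
  obtain ⟨Q, hQ⟩ : ∃ Q : H →L[ℂ] H, Q = P b n := ⟨_, rfl⟩
  have hQa : adjoint Q = Q := by rw [hQ, P_adjoint]
  have hQQ : Q * Q = Q := by
    rw [hQ]
    refine ext_basis b fun p => ?_
    change P b n (P b n (b p)) = P b n (b p)
    rw [P_apply]
    split_ifs with h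
    · rw [P_apply, if_pos h]
    · rw [map_zero]
  rw [← hQ]
  have h1 : ⟪Q v, Q v⟫_ℂ = ⟪v, Q v⟫_ℂ := by
    rw [← adjoint_inner_right, hQa]
    change ⟪v, (Q * Q) v⟫_ℂ = _
    rw [hQQ]
  have h2 : ‖Q v‖ * ‖Q v‖ ≤ ‖v‖ * ‖Q v‖ := by
    have h3 := norm_inner_le_norm (𝕜 := ℂ) v (Q v)
    rw [← h1, inner_self_eq_norm_sq_to_K] at h3
    simpa [sq] using h3
  rcases eq_or_lt_of_le (norm_nonneg (Q v)) with h0 | h0
  · rw [← h0]; exact norm_nonneg v
  · exact le_of_mul_le_mul_right h2 h0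

/-- The key rigidity statement: if `X` commutes with the tuple modulo the ideal and all
`X (1 ⊗ e_j)` are compact then `X` is compact. -/
lemma compact_of_forall {X : H →L[ℂ] H} (hX : X ∈ commutantMod (theIdeal H) (tau b))
    (hc : ∀ n, IsCompactOperator (X * P b n)) : IsCompactOperator X := by
  obtain ⟨C, hC⟩ : ∃ C : Fin 3 → (H →L[ℂ] H), ∀ i, C i = X * S b i - S b i * X := ⟨_, fun _ => rfl⟩
  have hCm : ∀ i, Mem (C i) := fun i => by rw [hC]; exact comm_S_mem b hX i
  have h1n : ‖(1 : H →L[ℂ] H)‖ ≤ 1 := norm_id_le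
  obtain ⟨δ, hδ⟩ : ∃ δ : ℕ → ℝ, ∀ n, δ n = 1 / 2 * ∑ i, N (C i * (1 - P b n)) :=
    ⟨_, fun _ => rfl⟩
  have hmemQ : ∀ i n, Mem (C i * (1 - P b n)) := by
    intro i n
    have := (hCm i).mul 1 (1 - P b n)
    rwa [one_mul] at this
  have hbound : ∀ n l, n ≤ l → ‖X * (P b l - P b n)‖ ≤ δ n := by
    intro n l hnl
    have e1 : ∀ i, X * (P b l - P b n) * S b i - S b i * (X * (P b l - P b n)) =
        C i * (P b l - P b n) := by
      intro i
      have h2 : (P b l - P b n) * S b i = S b i * (P b l - P b n) := by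
        rw [sub_mul, mul_sub, P_commute, P_commute]
      rw [mul_assoc, h2, ← mul_assoc, ← mul_assoc, ← sub_mul, hC]
    have e2 : ∀ i, C i * (P b l - P b n) = 1 * (C i * (1 - P b n)) * P b l := by
      intro i
      rw [P_sub_eq b hnl, one_mul, mul_assoc]
    have hm : ∀ i, Mem (X * (P b l - P b n) * S b i - S b i * (X * (P b l - P b n))) := by
      intro i
      rw [e1, e2]
      exact (hmemQ i n).mul 1 (P b l)
    have hcomp : IsCompactOperator (X * (P b l - P b n)) := by
      rw [mul_sub]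
      exact (hc l).sub (hc n)
    refine ((S_cuntz b).norm_le_sum hcomp hm).trans ?_
    rw [hδ]
    refine mul_le_mul_of_nonneg_left (Finset.sum_le_sum fun i _ => ?_) (by norm_num)
    rw [e1, e2]
    refine (N_mul_le (hmemQ i n) 1 (P b l)).trans ?_
    refine mul_le_of_le_one_left (N_nonneg _) ?_
    calc ‖(1 : H →L[ℂ] H)‖ * ‖P b l‖ ≤ 1 * 1 :=
          mul_le_mul h1n (norm_P_le b l) (norm_nonneg _) zero_le_one
      _ = 1 := one_mul _
  have hQ : ∀ n, ‖X - X * P b n‖ ≤ δ n := by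
    intro n
    have hδ0 : 0 ≤ δ n := (norm_nonneg _).trans (hbound n n le_rfl)
    refine opNorm_le_bound _ hδ0 fun v => ?_
    have h2 : Tendsto (fun l => P b l v) atTop (𝓝 v) := by
      have h3 := (Q_strong b v)
      have h4 : Tendsto (fun l => v - (1 - P b l) v) atTop (𝓝 (v - 0)) :=
        tendsto_const_nhds.sub h3
      rw [sub_zero] at h4
      refine h4.congr fun l => ?_
      change v - (v - P b l v) = P b l v
      rw [sub_sub_cancel]
    have h3 : Tendsto (fun l => ‖(X * (P b l - P b n)) v‖) atTop (𝓝 ‖(X - X * P b n) v‖) := by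
      refine Tendsto.norm ?_
      have h4 : Tendsto (fun l => X (P b l v) - X (P b n v)) atTop
          (𝓝 (X v - X (P b n v))) :=
        ((X.continuous.tendsto v).comp h2).sub tendsto_const_nhds
      refine h4.congr fun l => ?_
      change X (P b l v) - X (P b n v) = X (P b l v - P b n v)
      rw [map_sub]
    refine le_of_tendsto h3 ?_
    filter_upwards [eventually_ge_atTop n] with l hl
    exact ((X * (P b l - P b n)).le_opNorm v).trans
      (mul_le_mul_of_nonneg_right (hbound n l hl) (norm_nonneg v))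
  have hδlim : Tendsto δ atTop (𝓝 0) := by
    have h2 : ∀ i, Tendsto (fun n => N (C i * (1 - P b n))) atTop (𝓝 0) := by
      intro i
      refine N_tendsto_zero (g := kt (C i)) (hCm i) (compact_mul_Q b (mem_compact (hCm i))) ?_
      intro n k
      have e : C i * (1 - P b n) = 1 * C i * (1 - P b n) := by rw [one_mul]
      rw [e]
      refine (kt_mul_le _ _ _ k).trans ?_
      refine mul_le_of_le_one_left (kt_nonneg _ _) ?_
      calc ‖(1 : H →L[ℂ] H)‖ * ‖1 - P b n‖ ≤ 1 * 1 :=
            mul_le_mul h1n (norm_Q_le b n) (norm_nonneg _) zero_le_one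
        _ = 1 := one_mul _
    have h3 : Tendsto (fun n => 1 / 2 * ∑ i, N (C i * (1 - P b n))) atTop
        (𝓝 (1 / 2 * ∑ i : Fin 3, (0 : ℝ))) :=
      (tendsto_finsetSum _ fun i _ => h2 i).const_mul _
    rw [Finset.sum_const_zero, mul_zero] at h3
    exact h3.congr fun n => (hδ n).symm
  have hlim : Tendsto (fun n => X * P b n) atTop (𝓝 X) := by
    rw [tendsto_iff_norm_sub_tendsto_zero]
    refine squeeze_zero (fun _ => norm_nonneg _) (fun n => ?_) hδlim
    rw [norm_sub_rev]
    exact hQ n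
  exact isCompactOperator_of_tendsto (l := atTop) (F := fun n => X * P b n) (f := X) hlim
    (Eventually.of_forall hc)

/-! ### The Calkin norm -/

lemma calkinNorm_of_compact {X : H →L[ℂ] H} (hX : IsCompactOperator X) : calkinNorm X = 0 :=
  Metric.infDist_zero_of_mem hX

lemma compact_of_calkinNorm {X : H →L[ℂ] H} (hX : calkinNorm X = 0) : IsCompactOperator X := by
  have hcl : IsClosed {T : H →L[ℂ] H | IsCompactOperator T} :=
    isClosed_setOfPred_isCompactOperator
  have hne : {T : H →L[ℂ] H | IsCompactOperator T}.Nonempty := ⟨0, isCompactOperator_zero⟩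
  exact (hcl.mem_iff_infDist_zero hne).mpr hX

lemma calkinNorm_le (X : H →L[ℂ] H) : calkinNorm X ≤ ‖X‖ := by
  have := Metric.infDist_le_dist_of_mem (x := X)
    (s := {T : H →L[ℂ] H | IsCompactOperator T}) (y := 0) isCompactOperator_zero
  rwa [dist_zero_right] at this

lemma op_tendsto (l : List (H × H)) (n : ℕ) :
    Tendsto (fun k : ℕ => ‖op l (b (k, n))‖) atTop (𝓝 0) := by
  induction l with
  | nil => simp
  | cons p l ih =>
    have h1 : Tendsto (fun k : ℕ => ‖rankOne ℂ p.1 p.2 (b (k, n))‖) atTop (𝓝 0) := by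
      have h2 := b.orthonormal.inner_products_summable p.2
      have hinj : Function.Injective fun k : ℕ => ((k, n) : ℕ × ℕ) := by
        intro k k' h
        exact congrArg Prod.fst h
      have h3 : Tendsto (fun k : ℕ => ‖⟪b (k, n), p.2⟫_ℂ‖ ^ 2) atTop (𝓝 0) :=
        (h2.comp_injective hinj).tendsto_atTop_zero
      have h4 : Tendsto (fun k : ℕ => ‖⟪b (k, n), p.2⟫_ℂ‖) atTop (𝓝 0) := by
        have h5 := h3.sqrt
        rw [Real.sqrt_zero] at h5
        refine h5.congr fun k => ?_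
        rw [Real.sqrt_sq (norm_nonneg _)]
      have h5 := h4.mul_const ‖p.1‖
      rw [zero_mul] at h5
      refine h5.congr fun k => ?_
      rw [rankOne_apply, norm_smul, norm_inner_symm]
    have h2 := h1.add ih
    rw [add_zero] at h2
    refine squeeze_zero (fun _ => norm_nonneg _) (fun k => ?_) h2
    rw [op_cons]
    exact norm_add_le _ _

lemma calkinNorm_Q (n : ℕ) : calkinNorm (1 - P b n) = 1 := by
  refine le_antisymm ((calkinNorm_le _).trans (norm_Q_le b n)) ?_
  have hne : {T : H →L[ℂ] H | IsCompactOperator T}.Nonempty := ⟨0, isCompactOperator_zero⟩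
  unfold calkinNorm
  rw [Metric.le_infDist hne]
  intro T hT
  have hT' : IsCompactOperator T := hT
  rw [dist_eq_norm]
  refine le_of_forall_pos_le_add fun ε hε => ?_
  obtain ⟨l, hl⟩ := approx_of_compact hT' (half_pos hε)
  obtain ⟨k, hk⟩ := ((op_tendsto b l n).eventually_lt_const (half_pos hε)).exists
  have hb : ‖b (k, n)‖ = 1 := b.orthonormal.1 _
  have h1 : ‖(1 - P b n - T) (b (k, n))‖ ≤ ‖1 - P b n - T‖ := by
    have := (1 - P b n - T).le_opNorm (b (k, n))
    rwa [hb, mul_one] at this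
  have h2 : (1 - P b n - T) (b (k, n)) = b (k, n) - T (b (k, n)) := by
    change b (k, n) - P b n (b (k, n)) - T (b (k, n)) = _
    rw [P_apply, if_neg (lt_irrefl _), sub_zero]
  have h3 : ‖T (b (k, n))‖ ≤ ε := by
    have e : T (b (k, n)) = (T - op l) (b (k, n)) + op l (b (k, n)) := by
      rw [sub_apply, sub_add_cancel]
    rw [e]
    have h4 := (T - op l).le_opNorm (b (k, n))
    rw [hb, mul_one] at h4
    have := norm_add_le ((T - op l) (b (k, n))) (op l (b (k, n)))
    linarith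
  have h4 : ‖b (k, n)‖ ≤ ‖b (k, n) - T (b (k, n))‖ + ‖T (b (k, n))‖ := by
    have := norm_add_le (b (k, n) - T (b (k, n))) (T (b (k, n)))
    rwa [sub_add_cancel] at this
  rw [h2] at h1
  rw [hb] at h4
  linarith

lemma mem_of_commute {X : H →L[ℂ] H} (h1 : ∀ i, X * S b i = S b i * X)
    (h2 : adjoint X = X) : X ∈ commutantMod (theIdeal H) (tau b) := by
  have h0 : Mem (0 : H →L[ℂ] H) := mem_finiteRank finiteRank_zero
  refine comm_tau_mem b (fun i => ?_) fun i => ?_
  · rw [h1, sub_self]; exact h0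
  · have h3 : X * adjoint (S b i) = adjoint (S b i) * X := by
      have h4 := congrArg adjoint (h1 i)
      rw [mul_def, mul_def, adjoint_comp, adjoint_comp, h2] at h4
      exact h4.symm
    rw [h3, sub_self]; exact h0

lemma not_saturated :
    ¬ CountablyDegreeOneSaturated (commutantMod (theIdeal H) (tau b)) := by
  intro hsat
  have hone : adjoint (1 : H →L[ℂ] H) = 1 := adjoint_id (𝕜 := ℂ) (E := H)
  have m1 : (1 : H →L[ℂ] H) ∈ commutantMod (theIdeal H) (tau b) :=
    mem_of_commute b (fun i => by rw [one_mul, mul_one]) hone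
  have m0 : (0 : H →L[ℂ] H) ∈ commutantMod (theIdeal H) (tau b) :=
    mem_of_commute b (fun i => by rw [zero_mul, mul_zero]) (map_zero _)
  have mE : ∀ k, E b k ∈ commutantMod (theIdeal H) (tau b) :=
    fun k => mem_of_commute b (E_commute b k) (E_adjoint b k)
  have mQ : ∀ n, 1 - P b n ∈ commutantMod (theIdeal H) (tau b) :=
    fun n => mem_of_commute b (fun i => by rw [sub_mul, mul_sub, P_commute, one_mul, mul_one])
      (by rw [map_sub, hone, P_adjoint])
  obtain ⟨Pl, hP0, hPs⟩ : ∃ Pl : ℕ → Poly H, Pl 0 = ⟨0, [⟨1, 0, false, 1⟩]⟩ ∧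
      ∀ k, Pl (k + 1) = ⟨0, [⟨1, 0, false, E b k⟩]⟩ :=
    ⟨fun k => Nat.casesOn k ⟨0, [⟨1, 0, false, 1⟩]⟩ fun k => ⟨0, [⟨1, 0, false, E b k⟩]⟩,
      rfl, fun _ => rfl⟩
  obtain ⟨C, hC0, hCs⟩ : ∃ C : ℕ → Set ℝ, C 0 = {1} ∧ ∀ k, C (k + 1) = {0} :=
    ⟨fun k => Nat.casesOn k {1} fun _ => {0}, rfl, fun _ => rfl⟩
  have ev0 : ∀ x : ℕ → (H →L[ℂ] H), (Pl 0).eval x = x 0 := by
    intro x
    rw [hP0]
    simp [Poly.eval, Term.eval]
  have evs : ∀ (k : ℕ) (x : ℕ → (H →L[ℂ] H)), (Pl (k + 1)).eval x = x 0 * E b k := by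
    intro k x
    rw [hPs]
    simp [Poly.eval, Term.eval]
  obtain ⟨x, hx1, hx2⟩ := hsat Pl C (by
    intro k
    cases k with
    | zero =>
      rw [hP0]
      refine ⟨m0, fun T hT => ?_⟩
      rw [List.mem_singleton.mp hT]
      exact ⟨m1, m1⟩
    | succ k =>
      rw [hPs]
      refine ⟨m0, fun T hT => ?_⟩
      rw [List.mem_singleton.mp hT]
      exact ⟨m1, mE k⟩) (by
    intro k
    cases k with
    | zero => rw [hC0]; exact isCompact_singleton
    | succ k => rw [hCs]; exact isCompact_singleton) (by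
    intro n hn
    have hpos : (0 : ℝ) < 1 / n := by
      have : (0 : ℝ) < n := by exact_mod_cast hn
      positivity
    refine ⟨fun _ => 1 - P b n, fun _ => ⟨mQ n, (calkinNorm_Q b n).le⟩, fun k hk => ?_⟩
    cases k with
    | zero =>
      refine ⟨1, by rw [hC0]; rfl, ?_⟩
      rw [ev0, calkinNorm_Q, sub_self, abs_zero]
      exact hpos
    | succ k =>
      refine ⟨0, by rw [hCs]; rfl, ?_⟩
      have e : (1 - P b n) * E b k = 0 := by
        refine ext_basis b fun p => ?_
        change E b k (b p) - P b n (E b k (b p)) = 0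
        rw [E_apply]
        split_ifs with h
        · rw [P_apply, if_pos (by omega), sub_self]
        · simp
      rw [evs, e, calkinNorm_of_compact isCompactOperator_zero, sub_self, abs_zero]
      exact hpos)
  have h0 := hx2 0
  rw [ev0, hC0, Set.mem_singleton_iff] at h0
  have hcE : ∀ k, IsCompactOperator (x 0 * E b k) := by
    intro k
    have hk := hx2 (k + 1)
    rw [evs, hCs, Set.mem_singleton_iff] at hk
    exact compact_of_calkinNorm hk
  have hcP : ∀ n, IsCompactOperator (x 0 * P b n) := by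
    intro n
    unfold P
    induction n with
    | zero =>
      rw [Finset.range_zero, Finset.sum_empty, mul_zero]
      exact isCompactOperator_zero
    | succ n ih =>
      rw [Finset.sum_range_succ, mul_add]
      exact ih.add (hcE n)
  have hcomp := compact_of_forall b (hx1 0).1 hcP
  rw [calkinNorm_of_compact hcomp] at h0
  exact zero_ne_one h0

end Conclusion

/-! ### Hilbert bases indexed by `ℕ × ℕ` -/

lemma exists_basis [TopologicalSpace.SeparableSpace H] (hinf : ¬ FiniteDimensional ℂ H) :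
    Nonempty (HilbertBasis (ℕ × ℕ) ℂ H) := by
  obtain ⟨w, b, hb⟩ := exists_hilbertBasis ℂ H
  have hdist : ∀ i j : w, i ≠ j → 1 ≤ dist (b i) (b j) := by
    intro i j hij
    have h1 : ‖b i - b j‖ ^ 2 = 2 := by
      have h2 := @norm_sub_sq ℂ H _ _ _ (b i) (b j)
      rw [b.orthonormal.1, b.orthonormal.1, b.orthonormal.2 hij] at h2
      rw [h2]; norm_num
    rw [dist_eq_norm]
    by_contra h
    push Not at h
    have h3 := norm_nonneg (b i - b j)
    nlinarith
  have hcount : Countable w := by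
    have h1 : (Set.univ : Set w).Countable := by
      refine Set.PairwiseDisjoint.countable_of_isOpen (s := fun i : w => Metric.ball (b i) (1 / 2))
        ?_ (fun i _ => Metric.isOpen_ball) (fun i _ => ⟨b i, Metric.mem_ball_self (by norm_num)⟩)
      intro i _ j _ hij
      change Disjoint (Metric.ball (b i) (1 / 2)) (Metric.ball (b j) (1 / 2))
      refine Metric.ball_disjoint_ball ?_
      have := hdist i j hij
      linarith
    exact Set.countable_univ_iff.mp h1
  have hinfw : Infinite w := by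
    by_contra h
    rw [not_infinite_iff_finite] at h
    have : Fintype w := Fintype.ofFinite w
    exact hinf (Module.Basis.finiteDimensional_of_finite (b.toOrthonormalBasis.toBasis))
  obtain ⟨e⟩ : Nonempty ((ℕ × ℕ) ≃ w) := nonempty_equiv_of_countable
  refine ⟨HilbertBasis.mk (b.orthonormal.comp e e.injective) ?_⟩
  rw [EquivLike.range_comp, b.dense_span]

/-- Let `H` be an infinite dimensional separable complex Hilbert space. There are a normed ideal
`I` in which the finite rank operators are dense and a tuple `τ` of hermitian operators with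
`0 < k_I(τ) < ∞` such that the image of the commutant of `τ` modulo `I` in the Calkin algebra is
not countably degree-1 saturated. -/
theorem exists_not_saturated (H : Type*) [NormedAddCommGroup H] [InnerProductSpace ℂ H] [CompleteSpace H]
    [TopologicalSpace.SeparableSpace H] (hinf : ¬ FiniteDimensional ℂ H) :
    ∃ I : NormedIdeal H, FiniteRankDense I ∧
      ∃ (n : ℕ) (τ : Fin n → (H →L[ℂ] H)), (∀ j, IsSelfAdjoint (τ j)) ∧
        0 < modulus I τ ∧ modulus I τ < ⊤ ∧
        ¬ CountablyDegreeOneSaturated (commutantMod I τ) := by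
  obtain ⟨b⟩ := exists_basis hinf
  exact ⟨theIdeal H, theIdeal_dense, 3 + 3, tau b, tau_selfAdjoint b, modulus_pos b,
    modulus_lt_top b, not_saturated b⟩

end Pool.Agent.LibCommutantMod
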